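import Pool.Agent.R414.CB.Gauss

set_option autoImplicit false
set_option linter.unusedSectionVars false

/-! The extremal case of the bound for the character sum. -/

open Finset Polynomial

namespace Pool.Agent.R414.CB

lemma re_le_aux {z : ℂ} {R : ℝ} (h : ‖z‖ = R) : z.re ≤ R := by
  rw [← h]
  exact Complex.re_le_norm z

lemma eq_of_re {z : ℂ} {R : ℝ} (h : ‖z‖ = R) (h1 : z.re = R) : z = (R : ℂ) := by
  have h2 := Complex.sq_norm z
  rw [Complex.normSq_apply, h, h1] at h2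
  have h3 : z.im = 0 := by nlinarith
  apply Complex.ext
  · rw [h1, Complex.ofReal_re]
  · rw [h3, Complex.ofReal_im]

lemma card_ge_of_sum {ι κ : Type} (s : Finset ι) (t : Finset κ) (f : ι → ℂ) (g : κ → ℂ)
    {R Q n : ℝ} (hR : 0 < R) (hQ : 0 < Q) (hf : ∀ i ∈ s, ‖f i‖ = R) (hg : ∀ j ∈ t, ‖g j‖ = Q * R)
    (hsum : (Q : ℂ) * ∑ i ∈ s, f i + ∑ j ∈ t, g j = ((n * (Q * R) : ℝ) : ℂ)) :
    n ≤ s.card + t.card := by
  have h1 := congrArg Complex.re hsum
  rw [Complex.add_re, Complex.re_ofReal_mul, Complex.re_sum, Complex.re_sum,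
    Complex.ofReal_re] at h1
  have h2 : ∑ i ∈ s, (f i).re ≤ s.card * R := by
    rw [← nsmul_eq_mul]
    exact sum_le_card_nsmul _ _ _ fun i hi => re_le_aux (hf i hi)
  have h3 : ∑ j ∈ t, (g j).re ≤ t.card * (Q * R) := by
    rw [← nsmul_eq_mul]
    exact sum_le_card_nsmul _ _ _ fun i hi => re_le_aux (hg i hi)
  have h4 : n * (Q * R) ≤ (s.card + t.card) * (Q * R) := by
    rw [← h1]
    calc Q * ∑ i ∈ s, (f i).re + ∑ j ∈ t, (g j).re
        ≤ Q * (s.card * R) + t.card * (Q * R) := by gcongr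
      _ = _ := by ring
  exact le_of_mul_le_mul_right h4 (mul_pos hQ hR)

lemma eq_of_sum {ι κ : Type} (s : Finset ι) (t : Finset κ) (f : ι → ℂ) (g : κ → ℂ)
    {R Q n : ℝ} (hR : 0 < R) (hQ : 0 < Q) (hf : ∀ i ∈ s, ‖f i‖ = R) (hg : ∀ j ∈ t, ‖g j‖ = Q * R)
    (hsum : (Q : ℂ) * ∑ i ∈ s, f i + ∑ j ∈ t, g j = ((n * (Q * R) : ℝ) : ℂ))
    (hcard : (s.card : ℝ) + t.card ≤ n) :
    (∀ i ∈ s, f i = (R : ℂ)) ∧ ∀ j ∈ t, g j = ((Q * R : ℝ) : ℂ) := by
  have h1 := congrArg Complex.re hsum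
  rw [Complex.add_re, Complex.re_ofReal_mul, Complex.re_sum, Complex.re_sum,
    Complex.ofReal_re] at h1
  have h5 : ∀ i ∈ s, 0 ≤ R - (f i).re := fun i hi => sub_nonneg.2 (re_le_aux (hf i hi))
  have h6 : ∀ j ∈ t, 0 ≤ Q * R - (g j).re := fun i hi => sub_nonneg.2 (re_le_aux (hg i hi))
  have h2 : Q * ∑ i ∈ s, (R - (f i).re) + ∑ j ∈ t, (Q * R - (g j).re) ≤ 0 := by
    rw [sum_sub_distrib, sum_sub_distrib, sum_const, sum_const, nsmul_eq_mul, nsmul_eq_mul]
    have h4 : (s.card + t.card) * (Q * R) ≤ n * (Q * R) := by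
      exact mul_le_mul_of_nonneg_right hcard (mul_pos hQ hR).le
    nlinarith
  have h7 : 0 ≤ ∑ i ∈ s, (R - (f i).re) := sum_nonneg h5
  have h8 : 0 ≤ ∑ j ∈ t, (Q * R - (g j).re) := sum_nonneg h6
  have h9 : ∑ i ∈ s, (R - (f i).re) = 0 := by
    have : Q * ∑ i ∈ s, (R - (f i).re) ≤ 0 := by linarith
    nlinarith
  have h10 : ∑ j ∈ t, (Q * R - (g j).re) = 0 := by
    have : 0 ≤ Q * ∑ i ∈ s, (R - (f i).re) := mul_nonneg hQ.le h7
    linarith
  constructor
  · intro i hi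
    have := (sum_eq_zero_iff_of_nonneg h5).1 h9 i hi
    exact eq_of_re (hf i hi) (by linarith)
  · intro j hj
    have := (sum_eq_zero_iff_of_nonneg h6).1 h10 j hj
    exact eq_of_re (hg j hj) (by linarith)

variable {F E : Type} [Field F] [Fintype F] [DecidableEq F] [Field E] [Fintype E] [DecidableEq E]
  [Algebra F E]

section

variable (K : Type) [Field K] [CharZero K]

lemma etaN_sq {z : E} (hz : z ≠ 0) : etaN F E K z ^ 2 = 1 := by
  rw [etaN_apply]
  apply eta_sq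
  rwa [Ne, Algebra.norm_eq_zero_iff]

lemma eta_mul_self : eta F K * eta F K = 1 := by
  ext a
  rw [MulChar.mul_apply, ← pow_two, eta_sq K a.ne_zero, MulChar.one_apply_coe]

lemma etaN_mul_self : etaN F E K * etaN F E K = 1 := by
  ext a
  rw [MulChar.mul_apply, ← pow_two, etaN_sq K a.ne_zero, MulChar.one_apply_coe]

lemma eta_pow_odd {d : ℕ} (hd : Odd d) : eta F K ^ d = eta F K := by
  obtain ⟨r, rfl⟩ := hd
  rw [pow_succ, pow_mul, pow_two, eta_mul_self, one_pow, one_mul]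

lemma eta_pow_even {d : ℕ} : eta F K ^ (2 * d) = 1 := by
  rw [pow_mul, pow_two, eta_mul_self, one_pow]

lemma etaN_pow_odd {d : ℕ} (hd : Odd d) : etaN F E K ^ d = etaN F E K := by
  obtain ⟨r, rfl⟩ := hd
  rw [pow_succ, pow_mul, pow_two, etaN_mul_self, one_pow, one_mul]

lemma etaN_ne_one (hF : ringChar F ≠ 2) : etaN F E K ≠ 1 := by
  obtain ⟨a, ha⟩ := quadraticChar_exists_neg_one hF
  obtain ⟨z, hz⟩ := FiniteField.norm_surjective F E a
  intro h
  have ha0 : a ≠ 0 := by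
    rintro rfl
    simp at ha
  have hz0 : z ≠ 0 := by
    rintro rfl
    rw [Algebra.norm_zero] at hz
    exact ha0 hz.symm
  have h1 : etaN F E K z = 1 := by rw [h, MulChar.one_apply hz0.isUnit]
  rw [etaN_apply, hz, eta_apply, ha] at h1
  norm_num at h1

/-- `Θ ^ (q + 1)` is determined by the restriction of `Θ` -/
lemma pow_q1 (hc : Fintype.card E = Fintype.card F ^ 2) (Θ : MulChar E K) (z : E) (hz : z ≠ 0) :
    (Θ ^ (Fintype.card F + 1)) z = res F Θ (Algebra.norm F z) := by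
  rw [res_apply, norm_eq hc, map_pow]
  exact MulChar.pow_apply_coe Θ _ (Units.mk0 z hz)

lemma res_eq_eta (hc : Fintype.card E = Fintype.card F ^ 2) {Θ : MulChar E K}
    (h : Θ ^ (Fintype.card F + 1) = etaN F E K) : res F Θ = eta F K := by
  ext a
  obtain ⟨z, hz⟩ := FiniteField.norm_surjective F E (a : F)
  have hz0 : z ≠ 0 := by
    rintro rfl
    rw [Algebra.norm_zero] at hz
    exact a.ne_zero hz.symm
  have h1 := pow_q1 K hc Θ z hz0
  rw [h, etaN_apply, hz] at h1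
  exact h1.symm

end

variable (K : Type) [Field K] [CharZero K] [IsAlgClosed K]

variable (F) in
/-- characters in the split part -/
noncomputable def AA (d : ℕ) : Finset (MulChar F K) :=
  univ.filter (fun θ : MulChar F K => θ ^ (2 * d) = eta F K)

variable (F E) in
/-- characters in the nonsplit part -/
noncomputable def BB (d : ℕ) : Finset (MulChar E K) :=
  univ.filter (fun Θ : MulChar E K => Θ ^ (2 * d) = etaN F E K ∧ res F Θ = eta F K)

variable {K}

lemma mem_AA {d : ℕ} {θ : MulChar F K} : θ ∈ AA F K d ↔ θ ^ (2 * d) = eta F K := by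
  unfold AA
  rw [mem_filter]
  exact ⟨fun h => h.2, fun h => ⟨mem_univ _, h⟩⟩

lemma mem_BB {d : ℕ} {Θ : MulChar E K} :
    Θ ∈ BB F E K d ↔ Θ ^ (2 * d) = etaN F E K ∧ res F Θ = eta F K := by
  unfold BB
  rw [mem_filter]
  exact ⟨fun h => h.2, fun h => ⟨mem_univ _, h⟩⟩

lemma AA_sub {d : ℕ} (hd : Odd d) : AA F K 1 ⊆ AA F K d := by
  intro θ hθ
  rw [mem_AA] at hθ ⊢
  rw [mul_one] at hθ
  rw [pow_mul, hθ, eta_pow_odd K hd]

lemma BB_sub {d : ℕ} (hd : Odd d) : BB F E K 1 ⊆ BB F E K d := by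
  intro θ hθ
  rw [mem_BB] at hθ ⊢
  rw [mul_one] at hθ
  exact ⟨by rw [pow_mul, hθ.1, etaN_pow_odd K hd], hθ.2⟩

lemma pow_gcd_one {G : Type} [Group G] {x : G} {m n : ℕ} (hm : x ^ m = 1) (hn : x ^ n = 1) :
    x ^ (Nat.gcd m n) = 1 :=
  orderOf_dvd_iff_pow_eq_one.1 (Nat.dvd_gcd (orderOf_dvd_of_pow_eq_one hm)
    (orderOf_dvd_of_pow_eq_one hn))

lemma card_AA_le {d : ℕ} (hd : 0 < d) :
    (AA F K d).card ≤ 2 * Nat.gcd d (Fintype.card F - 1) := by
  have hg : 0 < 2 * Nat.gcd d (Fintype.card F - 1) :=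
    Nat.mul_pos two_pos (Nat.gcd_pos_of_pos_left _ hd)
  rcases (AA F K d).eq_empty_or_nonempty with h | ⟨θ₀, h⟩
  · rw [h, card_empty]
    exact Nat.zero_le _
  · rw [mem_AA] at h
    refine le_trans ?_ (card_pow_one_le (E := F) (K := K) hg)
    refine card_le_card_of_injOn (fun θ => θ * θ₀⁻¹) ?_ ?_
    · intro θ hθ
      rw [mem_coe, mem_AA] at hθ
      rw [mem_coe, mem_filter]
      refine ⟨mem_univ _, ?_⟩
      have h1 : (θ * θ₀⁻¹) ^ (2 * d) = 1 := by
        rw [mul_pow, inv_pow, hθ, h, mul_inv_cancel]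
      have h2 : (θ * θ₀⁻¹) ^ (2 * (Fintype.card F - 1)) = 1 := by
        rw [mul_comm 2, pow_mul, ← card_MC (E := F) (K := K), pow_card_eq_one, one_pow]
      rw [← Nat.gcd_mul_left]
      exact pow_gcd_one h1 h2
    · intro z _ z' _ h'
      exact mul_right_cancel h'

lemma card_BB_le (hc : Fintype.card E = Fintype.card F ^ 2) {d : ℕ} (hd : 0 < d) :
    (BB F E K d).card ≤ 2 * Nat.gcd d (Fintype.card F + 1) := by
  have hg : 0 < 2 * Nat.gcd d (Fintype.card F + 1) :=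
    Nat.mul_pos two_pos (Nat.gcd_pos_of_pos_left _ hd)
  rcases (BB F E K d).eq_empty_or_nonempty with h | ⟨θ₀, h⟩
  · rw [h, card_empty]
    exact Nat.zero_le _
  · rw [mem_BB] at h
    refine le_trans ?_ (card_pow_one_le (E := E) (K := K) hg)
    refine card_le_card_of_injOn (fun θ => θ * θ₀⁻¹) ?_ ?_
    · intro θ hθ
      rw [mem_coe, mem_BB] at hθ
      rw [mem_coe, mem_filter]
      refine ⟨mem_univ _, ?_⟩
      have h1 : (θ * θ₀⁻¹) ^ (2 * d) = 1 := by
        rw [mul_pow, inv_pow, hθ.1, h.1, mul_inv_cancel]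
      have h3 : θ ^ (Fintype.card F + 1) = θ₀ ^ (Fintype.card F + 1) := by
        ext z
        rw [pow_q1 K hc θ z z.ne_zero, pow_q1 K hc θ₀ z z.ne_zero, hθ.2, h.2]
      have h2 : (θ * θ₀⁻¹) ^ (2 * (Fintype.card F + 1)) = 1 := by
        rw [mul_comm 2, pow_mul, mul_pow, inv_pow, h3, mul_inv_cancel, one_pow]
      rw [← Nat.gcd_mul_left]
      exact pow_gcd_one h1 h2
    · intro z _ z' _ h'
      exact mul_right_cancel h'

lemma exists_order {n : ℕ} (hn : n ∣ Fintype.card E - 1) : ∃ χ : MulChar E K, orderOf χ = n := by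
  have hq : 1 < Fintype.card E := Fintype.one_lt_card
  have hn0 : n ≠ 0 := by
    rintro rfl
    have := Nat.eq_zero_of_zero_dvd hn
    omega
  have : NeZero n := ⟨hn0⟩
  have hnK : NeZero ((n : ℕ) : K) := ⟨by exact_mod_cast hn0⟩
  obtain ⟨ζ, hζ⟩ := HasEnoughRootsOfUnity.exists_primitiveRoot K n
  exact MulChar.exists_mulChar_orderOf E hn hζ

/-- elements of order two are equal -/
lemma eq_of_order_two {χ χ' : MulChar E K} (h : χ * χ = 1) (h1 : χ ≠ 1) (h' : χ' * χ' = 1)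
    (h1' : χ' ≠ 1) : χ = χ' := by
  by_contra hne
  have h2 := card_pow_one_le (E := E) (K := K) (N := 2) two_pos
  have h3 : ({1, χ, χ'} : Finset (MulChar E K)) ⊆
      univ.filter fun χ : MulChar E K => χ ^ 2 = 1 := by
    intro x hx
    rw [mem_filter]
    refine ⟨mem_univ _, ?_⟩
    simp only [mem_insert, mem_singleton] at hx
    rw [pow_two]
    rcases hx with rfl | rfl | rfl
    · exact one_mul 1
    · exact h
    · exact h'
  have h4 : ({1, χ, χ'} : Finset (MulChar E K)).card = 3 := by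
    rw [card_insert_of_notMem, card_insert_of_notMem, card_singleton]
    · rw [mem_singleton]
      exact hne
    · simp only [mem_insert, mem_singleton]
      rintro (h5 | h5)
      · exact h1 h5.symm
      · exact h1' h5.symm
  have := card_le_card h3
  omega

lemma sq_of_order_four {χ ε : MulChar E K} (h : orderOf χ = 4) (hε : ε * ε = 1) (hε1 : ε ≠ 1) :
    χ ^ 2 = ε := by
  apply eq_of_order_two _ _ hε hε1
  · rw [← pow_add, show 2 + 2 = orderOf χ by rw [h], pow_orderOf_eq_one]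
  · intro h1
    have := orderOf_dvd_of_pow_eq_one h1
    rw [h] at this
    exact absurd (Nat.le_of_dvd two_pos this) (by norm_num)

lemma two_le_card_AA (hF : ringChar F ≠ 2) (h4 : 4 ∣ Fintype.card F - 1) :
    2 ≤ (AA F K 1).card := by
  obtain ⟨χ, hχ⟩ := exists_order (E := F) (K := K) h4
  have h1 := sq_of_order_four hχ (eta_mul_self K) (eta_ne_one K hF)
  have h2 : ({χ, χ * eta F K} : Finset (MulChar F K)) ⊆ AA F K 1 := by
    intro x hx
    simp only [mem_insert, mem_singleton] at hx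
    rw [mem_AA, mul_one]
    rcases hx with rfl | rfl
    · exact h1
    · rw [mul_pow, h1, pow_two, eta_mul_self, mul_one]
  have h3 : ({χ, χ * eta F K} : Finset (MulChar F K)).card = 2 := by
    rw [card_insert_of_notMem, card_singleton]
    rw [mem_singleton]
    intro h
    exact eta_ne_one K hF (left_eq_mul.1 h)
  rw [← h3]
  exact card_le_card h2

lemma two_le_card_BB (hc : Fintype.card E = Fintype.card F ^ 2) (hF : ringChar F ≠ 2)
    (h4 : Fintype.card F % 4 = 1) : 2 ≤ (BB F E K 1).card := by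
  obtain ⟨j, hj⟩ : ∃ j, Fintype.card F = 4 * j + 1 := ⟨Fintype.card F / 4, by omega⟩
  have h4' : 4 ∣ Fintype.card E - 1 := by
    rw [hc, hj]
    refine ⟨4 * j ^ 2 + 2 * j, ?_⟩
    have : (4 * j + 1) ^ 2 = 4 * (4 * j ^ 2 + 2 * j) + 1 := by ring
    rw [this]
    simp
  obtain ⟨χ, hχ⟩ := exists_order (E := E) (K := K) h4'
  have h1 := sq_of_order_four hχ (etaN_mul_self (F := F) K) (etaN_ne_one K hF)
  have hodd : Odd (2 * j + 1) := ⟨j, rfl⟩
  have h2 : ({χ, χ * etaN F E K} : Finset (MulChar E K)) ⊆ BB F E K 1 := by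
    intro x hx
    simp only [mem_insert, mem_singleton] at hx
    rw [mem_BB, mul_one]
    have h5 : x ^ 2 = etaN F E K := by
      rcases hx with rfl | rfl
      · exact h1
      · rw [mul_pow, h1, pow_two, etaN_mul_self, mul_one]
    refine ⟨h5, res_eq_eta K hc ?_⟩
    rw [hj, show 4 * j + 1 + 1 = 2 * (2 * j + 1) by ring, pow_mul, h5, etaN_pow_odd K hodd]
  have h3 : ({χ, χ * etaN F E K} : Finset (MulChar E K)).card = 2 := by
    rw [card_insert_of_notMem, card_singleton]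
    rw [mem_singleton]
    intro h
    exact etaN_ne_one K hF (left_eq_mul.1 h)
  rw [← h3]
  exact card_le_card h2

end Pool.Agent.R414.CB
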