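import Pool.Agent.H916R2.Indep

set_option autoImplicit false
set_option linter.unusedSectionVars false

/-! Balanced orbits of multiplication by `p` modulo `4 n`. -/

open Finset

namespace Pool.Agent.R414.CB

open Pool.Agent.H916R2

/-- exactly half of the residues `b p ^ s` modulo `4 n`, `s < k`, exceed `2 n` -/
def Bal (n p k : ℕ) : Prop := ∀ b : ℕ, Odd b → ¬ n ∣ b →
  ((range k).filter fun s => 2 * n < (b * p ^ s) % (4 * n)).card * 2 = k

lemma bal_dvd {n n' p k : ℕ} (hn : Odd n) (h : n' ∣ n) (hb : Bal n p k) : Bal n' p k := by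
  obtain ⟨c, rfl⟩ := h
  rw [Nat.odd_mul] at hn
  intro b hbo hbn
  have hc : 0 < c := hn.2.pos
  have h1 := hb (c * b) (hn.2.mul hbo) (by
    intro h
    apply hbn
    rw [mul_comm n' c] at h
    exact Nat.dvd_of_mul_dvd_mul_left hc h)
  refine Eq.trans ?_ h1
  congr 2
  apply filter_congr
  intro s _
  have e : (c * b * p ^ s) % (4 * (n' * c)) = c * ((b * p ^ s) % (4 * n')) := by
    rw [← Nat.mul_mod_mul_left]
    congr 1 <;> ring
  rw [e]
  constructor
  · intro h2
    calc 2 * (n' * c) = c * (2 * n') := by ring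
      _ < _ := Nat.mul_lt_mul_of_pos_left h2 hc
  · intro h2
    have h3 : c * (2 * n') < c * ((b * p ^ s) % (4 * n')) := by
      calc c * (2 * n') = 2 * (n' * c) := by ring
        _ < _ := h2
    exact Nat.lt_of_mul_lt_mul_left h3

/-- the sign -/
def eps (n : ℕ) (a : ZMod (4 * n)) : ℤ := if 2 * n < a.val then -1 else 1

section

variable {n : ℕ} [NeZero (4 * n)]

lemma n_pos : 0 < n := by
  have := NeZero.ne (4 * n)
  omega

lemma saw_eps {a : ZMod (4 * n)} (ha : Odd a.val) :
    saw a - saw (a + ((2 * n : ℕ) : ZMod (4 * n))) = - (4 * n) * eps n a := by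
  have hn0 := n_pos (n := n)
  have ha0 : a ≠ 0 := by
    rintro rfl
    rw [ZMod.val_zero] at ha
    exact absurd ha (by decide)
  have hlt := ZMod.val_lt a
  have hne : a.val ≠ 2 * n := by
    intro h
    rw [h] at ha
    exact absurd ha (by simp)
  have h2v : ((2 * n : ℕ) : ZMod (4 * n)).val = 2 * n := by
    rw [ZMod.val_natCast, Nat.mod_eq_of_lt (by omega)]
  have hv : (a + ((2 * n : ℕ) : ZMod (4 * n))).val =
      if 2 * n < a.val then a.val - 2 * n else a.val + 2 * n := by
    rw [ZMod.val_add, h2v]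
    split_ifs with h
    · rw [Nat.mod_eq_sub_mod (by omega), Nat.mod_eq_of_lt (by omega)]
      omega
    · exact Nat.mod_eq_of_lt (by omega)
  have hb0 : a + ((2 * n : ℕ) : ZMod (4 * n)) ≠ 0 := by
    intro h
    rw [h, ZMod.val_zero] at hv
    split_ifs at hv <;> omega
  unfold saw eps
  rw [if_neg ha0, if_neg hb0, hv]
  split_ifs with h
  · push_cast [h.le]
    ring
  · push_cast
    ring

lemma bal_eps {p k : ℕ} (hb : Bal n p k) {a : ZMod (4 * n)} (ha : Odd a.val) (hna : ¬ n ∣ a.val) :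
    ∑ s ∈ range k, eps n (a * (p : ZMod (4 * n)) ^ s) = 0 := by
  have h1 := hb a.val ha hna
  have h2 : ∀ s ∈ range k, eps n (a * (p : ZMod (4 * n)) ^ s) =
      1 - 2 * (if 2 * n < (a.val * p ^ s) % (4 * n) then 1 else 0 : ℤ) := by
    intro s _
    have e : (a * (p : ZMod (4 * n)) ^ s).val = (a.val * p ^ s) % (4 * n) := by
      rw [← ZMod.val_natCast]
      congr 1
      push_cast
      rw [ZMod.natCast_zmod_val]
    unfold eps
    rw [e]
    split_ifs <;> norm_num
  rw [sum_congr rfl h2, sum_sub_distrib, ← mul_sum, sum_ite, sum_const_zero, add_zero, sum_const,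
    sum_const, card_range]
  simp only [nsmul_eq_mul, mul_one]
  have h3 : (((range k).filter fun s => 2 * n < (a.val * p ^ s) % (4 * n)).card : ℤ) * 2 = k := by
    exact_mod_cast h1
  linarith

/-- the sum of `χ t · ε (t a)` over the units vanishes -/
lemma sum_chi_eps {p k : ℕ} (hk : 0 < k) (hb : Bal n p k) (χ : DirichletCharacter ℂ (4 * n))
    (pu : (ZMod (4 * n))ˣ) (hpu : (pu : ZMod (4 * n)) = p) (hp : χ (pu : ZMod (4 * n)) = 1)
    {a : ZMod (4 * n)} (h : ∀ t : (ZMod (4 * n))ˣ, Odd ((t : ZMod (4 * n)) * a).val ∧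
      ¬ n ∣ ((t : ZMod (4 * n)) * a).val) :
    ∑ t : (ZMod (4 * n))ˣ, χ t * (eps n ((t : ZMod (4 * n)) * a) : ℂ) = 0 := by
  set T := ∑ t : (ZMod (4 * n))ˣ, χ t * (eps n ((t : ZMod (4 * n)) * a) : ℂ) with hT
  have h1 : ∀ s : ℕ, ∑ t : (ZMod (4 * n))ˣ, χ t *
      (eps n ((t : ZMod (4 * n)) * a * (p : ZMod (4 * n)) ^ s) : ℂ) = T := by
    intro s
    have h0 := Equiv.sum_comp (Equiv.mulRight (pu ^ s))
      (fun t : (ZMod (4 * n))ˣ => χ t * (eps n ((t : ZMod (4 * n)) * a) : ℂ))
    rw [hT, ← h0]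
    refine sum_congr rfl fun t _ => ?_
    rw [Equiv.coe_mulRight, Units.val_mul, map_mul, Units.val_pow_eq_pow_val, map_pow, hp, one_pow,
      mul_one, hpu]
    congr 3
    ring
  have h2 : (k : ℂ) * T = 0 := by
    calc (k : ℂ) * T = ∑ s ∈ range k, ∑ t : (ZMod (4 * n))ˣ, χ t *
          (eps n ((t : ZMod (4 * n)) * a * (p : ZMod (4 * n)) ^ s) : ℂ) := by
          rw [sum_congr rfl fun s _ => h1 s, sum_const, card_range, nsmul_eq_mul]
      _ = ∑ t : (ZMod (4 * n))ˣ, χ t * ((∑ s ∈ range k,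
          eps n ((t : ZMod (4 * n)) * a * (p : ZMod (4 * n)) ^ s) : ℤ) : ℂ) := by
          rw [sum_comm]
          refine sum_congr rfl fun t _ => ?_
          push_cast
          rw [mul_sum]
      _ = 0 := by
          apply sum_eq_zero
          intro t _
          rw [bal_eps hb (h t).1 (h t).2]
          simp
  rcases mul_eq_zero.1 h2 with h3 | h3
  · exact absurd h3 (by exact_mod_cast hk.ne')
  · exact h3

lemma unit_odd (t : (ZMod (4 * n))ˣ) : Odd (t : ZMod (4 * n)).val := by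
  have h := ZMod.val_coe_unit_coprime t
  rw [← Nat.coprime_two_right]
  exact h.coprime_mul_right_right.coprime_dvd_right (by norm_num)

lemma val_mul_odd {a : ZMod (4 * n)} (ha : Odd a.val) (t : (ZMod (4 * n))ˣ) :
    Odd ((t : ZMod (4 * n)) * a).val := by
  rw [ZMod.val_mul]
  have h1 := (unit_odd t).mul ha
  rw [Nat.odd_iff] at h1 ⊢
  rw [Nat.mod_mod_of_dvd _ (⟨2 * n, by ring⟩ : 2 ∣ 4 * n)]
  exact h1

lemma val_mul_dvd {a : ZMod (4 * n)} (t : (ZMod (4 * n))ˣ) (h : n ∣ ((t : ZMod (4 * n)) * a).val) :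
    n ∣ a.val := by
  rw [ZMod.val_mul, Nat.dvd_mod_iff ⟨4, by ring⟩] at h
  have h1 := (ZMod.val_coe_unit_coprime t).coprime_mul_left_right
  exact h1.symm.dvd_of_dvd_mul_left h

/-- **No odd character with `χ (1 + 2 n) = -1`, `χ p = 1` is nontrivial on the units that are `1`
modulo `4`.** -/
theorem no_char {p k : ℕ} (hk : 0 < k) (hb : Bal n p k)
    (χ : DirichletCharacter ℂ (4 * n)) (hodd : χ.Odd)
    (pu : (ZMod (4 * n))ˣ) (hpu : (pu : ZMod (4 * n)) = p) (hp : χ (pu : ZMod (4 * n)) = 1)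
    (v : (ZMod (4 * n))ˣ) (hv : (v : ZMod (4 * n)) = ((1 + 2 * n : ℕ) : ZMod (4 * n)))
    (hχv : χ (v : ZMod (4 * n)) = -1)
    (u : (ZMod (4 * n))ˣ) (hu : ∃ c : ℕ, (u : ZMod (4 * n)) = ((1 + 4 * c : ℕ) : ZMod (4 * n)))
    (hχu : χ (u : ZMod (4 * n)) ≠ 1) : False := by
  obtain ⟨a, ha⟩ := exists_SS_ne_zero χ hodd
  apply ha
  have h4n : ((4 * n : ℕ) : ZMod (4 * n)) = 0 := ZMod.natCast_self _
  have haval : ((a.val : ℕ) : ZMod (4 * n)) = a := ZMod.natCast_zmod_val a
  by_cases hao : Odd a.val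
  · by_cases hna : n ∣ a.val
    · obtain ⟨c, hc⟩ := hu
      have h1 : (u : ZMod (4 * n)) * a = a := by
        obtain ⟨e, he⟩ := hna
        rw [hc, ← haval, he, ← Nat.cast_mul]
        have : (1 + 4 * c) * (n * e) = n * e + 4 * n * (c * e) := by ring
        rw [this, Nat.cast_add, Nat.cast_mul (4 * n), h4n, zero_mul, add_zero]
      have h2 := SS_unit χ u a
      rw [h1] at h2
      have h3 : χ (u : ZMod (4 * n)) ≠ 0 := by
        intro h
        rw [h, inv_zero, zero_mul] at h2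
        exact ha h2
      by_contra hne
      apply hχu
      have h4 : (χ (u : ZMod (4 * n)))⁻¹ = 1 := by
        have := mul_right_cancel₀ hne ((one_mul (SS χ a)).trans h2)
        exact this.symm
      rw [← inv_inv (χ (u : ZMod (4 * n))), h4, inv_one]
    · have h1 : (v : ZMod (4 * n)) * a = a + ((2 * n : ℕ) : ZMod (4 * n)) := by
        obtain ⟨e, he⟩ := hao
        rw [hv, ← haval, he, ← Nat.cast_mul, ← Nat.cast_add]
        have : (1 + 2 * n) * (2 * e + 1) = (2 * e + 1 + 2 * n) + 4 * n * e := by ring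
        rw [this, Nat.cast_add _ (4 * n * e), Nat.cast_mul (4 * n), h4n, zero_mul, add_zero]
      have h2 := SS_unit χ v a
      rw [h1, hχv] at h2
      have h3 : SS χ a - SS χ (a + ((2 * n : ℕ) : ZMod (4 * n))) =
          - (4 * n) * ∑ t : (ZMod (4 * n))ˣ, χ t * (eps n ((t : ZMod (4 * n)) * a) : ℂ) := by
        unfold SS
        rw [← sum_sub_distrib, mul_sum]
        refine sum_congr rfl fun t _ => ?_
        have h5 := saw_eps (val_mul_odd hao t)
        have h6 : (t : ZMod (4 * n)) * (a + ((2 * n : ℕ) : ZMod (4 * n))) =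
            (t : ZMod (4 * n)) * a + ((2 * n : ℕ) : ZMod (4 * n)) := by
          rw [mul_add]
          congr 1
          obtain ⟨e, he⟩ := unit_odd t
          rw [← ZMod.natCast_zmod_val (t : ZMod (4 * n)), he, ← Nat.cast_mul]
          have : (2 * e + 1) * (2 * n) = 2 * n + 4 * n * e := by ring
          rw [this, Nat.cast_add, Nat.cast_mul (4 * n), h4n, zero_mul, add_zero]
        rw [h6]
        have h7 : ((saw ((t : ZMod (4 * n)) * a) : ℤ) : ℂ) -
            (saw ((t : ZMod (4 * n)) * a + ((2 * n : ℕ) : ZMod (4 * n))) : ℤ) =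
            - (4 * n) * (eps n ((t : ZMod (4 * n)) * a) : ℂ) := by
          exact_mod_cast h5
        linear_combination χ t * h7
      rw [sum_chi_eps hk hb χ pu hpu hp fun t => ⟨val_mul_odd hao t, fun h => hna (val_mul_dvd t h)⟩,
        mul_zero, h2] at h3
      have : (2 : ℂ) * SS χ a = 0 := by
        have h8 : ((-1 : ℂ))⁻¹ = -1 := by norm_num
        rw [h8] at h3
        linear_combination h3
      simpa using this
  · rw [Nat.not_odd_iff_even] at hao
    have h1 : (v : ZMod (4 * n)) * a = a := by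
      obtain ⟨e, he⟩ := hao
      rw [hv, ← haval, he, ← Nat.cast_mul]
      have : (1 + 2 * n) * (e + e) = (e + e) + 4 * n * e := by ring
      rw [this, Nat.cast_add, Nat.cast_mul (4 * n), h4n, zero_mul, add_zero]
    have h2 := SS_unit χ v a
    rw [h1, hχv] at h2
    have h8 : ((-1 : ℂ))⁻¹ = -1 := by norm_num
    rw [h8] at h2
    have : (2 : ℂ) * SS χ a = 0 := by linear_combination h2
    simpa using this

end

end Pool.Agent.R414.CB
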