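import Pool.Agent.R414.CB.Comb

set_option autoImplicit false
set_option linter.unusedSectionVars false

/-! Balanced orbits: consequences for the prime factors of `n`. -/

open Finset

namespace Pool.Agent.R414.CB

open Pool.Agent.H916R2

lemma sum_units {N : ℕ} [NeZero N] (f : ZMod N → ℂ) :
    ∑ t : (ZMod N)ˣ, f (t : ZMod N) = ∑ b ∈ (range N).filter (fun b => b.Coprime N), f (b : ZMod N) := by
  refine sum_bij (fun t _ => (t : ZMod N).val) ?_ ?_ ?_ ?_
  · intro t _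
    rw [mem_filter, mem_range]
    exact ⟨ZMod.val_lt _, ZMod.val_coe_unit_coprime t⟩
  · intro t _ t' _ h
    exact Units.ext (ZMod.val_injective N h)
  · intro b hb
    rw [mem_filter, mem_range] at hb
    refine ⟨ZMod.unitOfCoprime b hb.2, mem_univ _, ?_⟩
    rw [ZMod.coe_unitOfCoprime, ZMod.val_natCast, Nat.mod_eq_of_lt hb.1]
  · intro t _
    rw [ZMod.natCast_zmod_val]

/-- the odd character modulo `4`, complex valued -/
noncomputable def c4 : DirichletCharacter ℂ 4 := ZMod.χ₄.ringHomComp (Int.castRingHom ℂ)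

lemma c4_nat (b : ℕ) : c4 (b : ZMod 4) = ((ZMod.χ₄ (b : ZMod 4) : ℤ) : ℂ) := rfl

lemma changeLevel_nat {n m : ℕ} (h : n ∣ m) (χ : DirichletCharacter ℂ n) (b : ℕ)
    (hb : b.Coprime m) :
    DirichletCharacter.changeLevel h χ (b : ZMod m) = χ (b : ZMod n) := by
  have h1 := DirichletCharacter.changeLevel_eq_cast_of_dvd χ h (ZMod.unitOfCoprime b hb)
  rw [ZMod.coe_unitOfCoprime, ZMod.cast_natCast h] at h1
  exact h1

/-- No even nontrivial character modulo `n` is trivial on `p`. -/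
theorem no_even_char {n p k : ℕ} (hn : Odd n) (hk : 0 < k) (hb : Bal n p k)
    (hp4 : p % 4 = 1) (hpn : p.Coprime n) (ψ : DirichletCharacter ℂ n) (hψ : ψ (-1) = 1)
    (hψp : ψ (p : ZMod n) = 1) (w : ℕ) (hw : w.Coprime n) (hψw : ψ (w : ZMod n) ≠ 1) : False := by
  have hn0 : 0 < n := hn.pos
  have : NeZero (4 * n) := ⟨by omega⟩
  have h4n : Nat.Coprime 4 n := by
    rw [show (4 : ℕ) = 2 ^ 2 from rfl]
    exact Nat.Coprime.pow_left 2 hn.coprime_two_left
  set χ : DirichletCharacter ℂ (4 * n) :=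
    DirichletCharacter.changeLevel (dvd_mul_right 4 n) c4 *
      DirichletCharacter.changeLevel (dvd_mul_left n 4) ψ with hχ
  have hχb : ∀ b : ℕ, b.Coprime (4 * n) → χ (b : ZMod (4 * n)) =
      c4 (b : ZMod 4) * ψ (b : ZMod n) := by
    intro b hb'
    rw [hχ, MulChar.mul_apply, changeLevel_nat _ _ b hb', changeLevel_nat _ _ b hb']
  have hp' : p.Coprime (4 * n) := by
    refine Nat.Coprime.mul_right ?_ hpn
    rw [show (4 : ℕ) = 2 ^ 2 from rfl]
    refine Nat.Coprime.pow_right 2 ?_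
    rw [Nat.coprime_two_right, Nat.odd_iff]
    omega
  have hv' : (1 + 2 * n).Coprime (4 * n) := by
    refine Nat.Coprime.mul_right ?_ ?_
    · rw [show (4 : ℕ) = 2 ^ 2 from rfl]
      refine Nat.Coprime.pow_right 2 ?_
      rw [Nat.coprime_two_right, Nat.odd_iff]
      omega
    · simp
  obtain ⟨u, hu4, hun⟩ := Nat.chineseRemainder h4n 1 w
  have hu' : u.Coprime (4 * n) := by
    refine Nat.Coprime.mul_right ?_ ?_
    · rw [show (4 : ℕ) = 2 ^ 2 from rfl]
      refine Nat.Coprime.pow_right 2 ?_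
      rw [Nat.coprime_two_right, Nat.odd_iff]
      unfold Nat.ModEq at hu4
      omega
    · have := hun.gcd_eq
      unfold Nat.Coprime at hw ⊢
      rw [← hw, this]
  have hu4' : u % 4 = 1 := hu4
  refine no_char (n := n) hk hb χ ?_ (ZMod.unitOfCoprime p hp') (ZMod.coe_unitOfCoprime _ _) ?_
    (ZMod.unitOfCoprime _ hv') (ZMod.coe_unitOfCoprime _ _) ?_
    (ZMod.unitOfCoprime u hu') ⟨u / 4, ?_⟩ ?_
  · have h1 : (4 * n - 1).Coprime (4 * n) := by
      have := Nat.coprime_self_sub_right (show 1 ≤ 4 * n by omega)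
      rw [Nat.coprime_comm]
      exact (this.2 (Nat.coprime_one_right _))
    have h2 := hχb _ h1
    have e : (1 : ℕ) ≤ 4 * n := by omega
    have e1 : ((4 * n - 1 : ℕ) : ZMod (4 * n)) = -1 := by
      rw [Nat.cast_sub e, ZMod.natCast_self]
      simp
    have e2 : ((4 * n - 1 : ℕ) : ZMod 4) = -1 := by
      rw [Nat.cast_sub e, Nat.cast_mul, ZMod.natCast_self]
      simp
    have e3 : ((4 * n - 1 : ℕ) : ZMod n) = -1 := by
      rw [Nat.cast_sub e, Nat.cast_mul, ZMod.natCast_self]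
      simp
    rw [e1, e2, e3, hψ, mul_one] at h2
    unfold DirichletCharacter.Odd
    rw [h2]
    have : c4 (-1) = ((ZMod.χ₄ (-1) : ℤ) : ℂ) := rfl
    rw [this]
    have h3 : ZMod.χ₄ (-1) = -1 := by decide
    rw [h3]
    norm_num
  · rw [ZMod.coe_unitOfCoprime, hχb p hp', hψp, mul_one, c4_nat, ZMod.χ₄_nat_one_mod_four hp4]
    norm_num
  · rw [ZMod.coe_unitOfCoprime, hχb _ hv', c4_nat, ZMod.χ₄_nat_three_mod_four]
    · have : ((1 + 2 * n : ℕ) : ZMod n) = 1 := by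
        push_cast
        rw [ZMod.natCast_self]
        simp
      rw [this]
      simp
    · obtain ⟨c, hc⟩ := hn
      omega
  · rw [ZMod.coe_unitOfCoprime]
    congr 1
    omega
  · rw [ZMod.coe_unitOfCoprime, hχb _ hu', c4_nat, ZMod.χ₄_nat_one_mod_four hu4']
    have : (u : ZMod n) = (w : ZMod n) := (ZMod.natCast_eq_natCast_iff _ _ _).2 hun
    rw [this]
    simpa using hψw

lemma sum_chi4 (m : ℕ) : ∑ b ∈ range (4 * m), ZMod.χ₄ (b : ZMod 4) = 0 := by
  induction m with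
  | zero => simp
  | succ m ih =>
    rw [show 4 * (m + 1) = 4 * m + 1 + 1 + 1 + 1 by ring, sum_range_succ, sum_range_succ,
      sum_range_succ, sum_range_succ, ih]
    have h4 : (4 : ZMod 4) = 0 := rfl
    push_cast
    rw [h4, zero_mul]
    decide

/-- each prime factor is `1` modulo `4` -/
theorem prime_mod_four {l p k : ℕ} (hl : l.Prime) (hl2 : Odd l) (hk : 0 < k) (hb : Bal l p k)
    (hp4 : p % 4 = 1) (hpl : p.Coprime l) : l % 4 = 1 := by
  have hl0 := hl.pos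
  have : NeZero (4 * l) := ⟨by omega⟩
  have hp' : p.Coprime (4 * l) := by
    refine Nat.Coprime.mul_right ?_ hpl
    rw [show (4 : ℕ) = 2 ^ 2 from rfl]
    refine Nat.Coprime.pow_right 2 ?_
    rw [Nat.coprime_two_right, Nat.odd_iff]
    omega
  have h1 := sum_chi_eps (n := l) (a := 1) hk hb
    (DirichletCharacter.changeLevel (dvd_mul_right 4 l) c4) (ZMod.unitOfCoprime p hp')
    (ZMod.coe_unitOfCoprime _ _) (by
      rw [ZMod.coe_unitOfCoprime, changeLevel_nat _ _ _ hp', c4_nat,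
        ZMod.χ₄_nat_one_mod_four hp4]
      norm_num) (by
      intro t
      rw [mul_one]
      refine ⟨unit_odd t, ?_⟩
      intro h
      have h2 := (ZMod.val_coe_unit_coprime t).coprime_mul_left_right
      exact hl.one_lt.ne' (Nat.eq_one_of_dvd_coprimes h2 h dvd_rfl))
  rw [sum_units (fun t => DirichletCharacter.changeLevel (dvd_mul_right 4 l) c4 t *
    (eps l (t * 1) : ℂ))] at h1
  have h2 : ∀ b ∈ (range (4 * l)).filter (fun b => b.Coprime (4 * l)),
      DirichletCharacter.changeLevel (dvd_mul_right 4 l) c4 (b : ZMod (4 * l)) *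
      (eps l ((b : ZMod (4 * l)) * 1) : ℂ) =
      ((ZMod.χ₄ (b : ZMod 4) * (if 2 * l < b then -1 else 1) : ℤ) : ℂ) := by
    intro b hb'
    rw [mem_filter, mem_range] at hb'
    rw [changeLevel_nat _ _ _ hb'.2, c4_nat, mul_one]
    unfold eps
    rw [ZMod.val_natCast, Nat.mod_eq_of_lt hb'.1]
    push_cast
    rfl
  rw [sum_congr rfl h2, ← Int.cast_sum] at h1
  have h3 : ∑ b ∈ (range (4 * l)).filter (fun b => b.Coprime (4 * l)),
      ZMod.χ₄ (b : ZMod 4) * (if 2 * l < b then -1 else 1) = 0 := by exact_mod_cast h1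
  have h4 : ∑ b ∈ (range (4 * l)).filter (fun b => b.Coprime (4 * l)),
      ZMod.χ₄ (b : ZMod 4) * (if 2 * l < b then -1 else 1) =
      ∑ b ∈ (range (4 * l)).filter (fun b => ¬ l ∣ b),
      ZMod.χ₄ (b : ZMod 4) * (if 2 * l < b then -1 else 1) := by
    refine sum_subset ?_ ?_
    · intro b
      simp only [mem_filter]
      rintro ⟨h, h'⟩
      refine ⟨h, fun h'' => ?_⟩
      exact hl.one_lt.ne' (Nat.eq_one_of_dvd_coprimes h'.coprime_mul_left_right h'' dvd_rfl)
    · intro b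
      simp only [mem_filter]
      rintro ⟨h, h'⟩ h''
      have h5 : ¬ b.Coprime 4 := by
        intro h5
        exact h'' ⟨h, h5.mul_right ((Nat.Prime.coprime_iff_not_dvd hl).2 h').symm⟩
      rw [Nat.coprime_comm, show (4 : ℕ) = 2 ^ 2 from rfl,
        Nat.coprime_pow_left_iff (by norm_num), Nat.coprime_two_left, Nat.not_odd_iff_even] at h5
      rw [ZMod.χ₄_nat_eq_if_mod_four, if_pos (Nat.even_iff.1 h5), zero_mul]
  rw [h4] at h3
  have h5 : ∑ b ∈ (range (4 * l)).filter (fun b => ¬ l ∣ b),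
      ZMod.χ₄ (b : ZMod 4) * (if 2 * l < b then -1 else 1) =
      ∑ b ∈ range (4 * l), ZMod.χ₄ (b : ZMod 4) * (if 2 * l < b then -1 else 1) -
      ∑ b ∈ (range (4 * l)).filter (fun b => l ∣ b),
      ZMod.χ₄ (b : ZMod 4) * (if 2 * l < b then -1 else 1) := by
    rw [eq_sub_iff_add_eq, add_comm]
    exact sum_filter_add_sum_filter_not _ _ _
  have h6 : (range (4 * l)).filter (fun b => l ∣ b) = (range 4).image (fun c => l * c) := by
    ext b
    simp only [mem_filter, mem_range, mem_image]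
    constructor
    · rintro ⟨h, c, rfl⟩
      refine ⟨c, ?_, rfl⟩
      rw [mul_comm 4 l] at h
      exact Nat.lt_of_mul_lt_mul_left h
    · rintro ⟨c, hc, rfl⟩
      refine ⟨?_, dvd_mul_right _ _⟩
      rw [mul_comm 4 l]
      exact Nat.mul_lt_mul_of_pos_left hc hl0
  have h7 : ∑ b ∈ (range (4 * l)).filter (fun b => l ∣ b),
      ZMod.χ₄ (b : ZMod 4) * (if 2 * l < b then -1 else 1) = 2 * ZMod.χ₄ (l : ZMod 4) := by
    rw [h6, sum_image (fun c _ c' _ h => Nat.eq_of_mul_eq_mul_left hl0 h)]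
    rw [sum_range_succ, sum_range_succ, sum_range_succ, sum_range_one]
    rw [if_neg (by omega), if_neg (by omega), if_neg (by omega), if_pos (by omega)]
    push_cast
    rw [map_mul, map_mul, map_mul, map_mul]
    have e0 : ZMod.χ₄ 0 = 0 := by decide
    have e1 : ZMod.χ₄ 1 = 1 := by decide
    have e2 : ZMod.χ₄ 2 = 0 := by decide
    have e3 : ZMod.χ₄ 3 = -1 := by decide
    rw [e0, e1, e2, e3]
    ring
  have h8 : ∑ b ∈ range (4 * l), ZMod.χ₄ (b : ZMod 4) * (if 2 * l < b then -1 else 1) = 2 := by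
    obtain ⟨r, hr⟩ := hl2
    have e1 : ∑ b ∈ range (2 * l), ZMod.χ₄ (b : ZMod 4) = 1 := by
      rw [show 2 * l = 4 * r + 1 + 1 by omega, sum_range_succ, sum_range_succ, sum_chi4]
      have h4 : (4 : ZMod 4) = 0 := rfl
      push_cast
      rw [h4, zero_mul]
      decide
    have e2 : ∑ b ∈ range (2 * l), ZMod.χ₄ (b : ZMod 4) * (if 2 * l < b then -1 else 1) = 1 := by
      refine Eq.trans (sum_congr rfl fun b hb' => ?_) e1
      rw [mem_range] at hb'
      rw [if_neg (by omega), mul_one]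
    have e3 := sum_chi4 l
    rw [show 4 * l = 2 * l + 2 * l by ring, sum_range_add, e1] at e3
    rw [show 4 * l = 2 * l + 2 * l by ring, sum_range_add, e2]
    have e4 : ∑ b ∈ range (2 * l), ZMod.χ₄ ((2 * l + b : ℕ) : ZMod 4) *
        (if 2 * l < 2 * l + b then -1 else 1) =
        - ∑ b ∈ range (2 * l), ZMod.χ₄ ((2 * l + b : ℕ) : ZMod 4) := by
      rw [← sum_neg_distrib]
      refine sum_congr rfl fun b _ => ?_
      by_cases hb0 : b = 0
      · subst hb0
        rw [add_zero, ZMod.χ₄_nat_eq_if_mod_four, if_pos (by omega)]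
        simp
      · rw [if_pos (by omega)]
        ring
    rw [e4]
    linarith
  rw [h5, h7, h8] at h3
  have h9 : ZMod.χ₄ (l : ZMod 4) = 1 := by linarith
  rw [ZMod.χ₄_nat_eq_if_mod_four] at h9
  by_contra h12
  rw [if_neg (by rw [Nat.odd_iff] at hl2; omega), if_neg h12] at h9
  norm_num at h9

/-- the quadratic character modulo a prime, complex valued -/
noncomputable def qc (l : ℕ) [Fact l.Prime] : DirichletCharacter ℂ l :=
  (quadraticChar (ZMod l)).ringHomComp (Int.castRingHom ℂ)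

lemma qc_apply (l : ℕ) [Fact l.Prime] (a : ZMod l) :
    qc l a = ((quadraticChar (ZMod l) a : ℤ) : ℂ) := rfl

lemma qc_neg_one {l : ℕ} [Fact l.Prime] (hl4 : l % 4 = 1) : qc l (-1) = 1 := by
  have h1 : IsSquare (-1 : ZMod l) := ZMod.exists_sq_eq_neg_one_iff.2 (by omega)
  rw [qc_apply, (quadraticChar_one_iff_isSquare (neg_ne_zero.2 one_ne_zero)).2 h1]
  norm_num

lemma qc_dichotomy {l : ℕ} [Fact l.Prime] {b : ℕ} (hb : b.Coprime l) :
    qc l (b : ZMod l) = 1 ∨ qc l (b : ZMod l) = -1 := by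
  have h1 : (b : ZMod l) ≠ 0 := by
    intro h
    rw [ZMod.natCast_eq_zero_iff] at h
    have h2 := (Fact.out : l.Prime)
    exact h2.one_lt.ne' (Nat.eq_one_of_dvd_coprimes hb h dvd_rfl)
  rcases quadraticChar_dichotomy h1 with h2 | h2
  · left; rw [qc_apply, h2]; norm_num
  · right; rw [qc_apply, h2]; norm_num

lemma exists_nonres {l : ℕ} [Fact l.Prime] (hl2 : Odd l) :
    ∃ b : ℕ, b.Coprime l ∧ qc l (b : ZMod l) = -1 := by
  have h0 : ringChar (ZMod l) ≠ 2 := by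
    rw [ZMod.ringChar_zmod_n]
    rintro rfl
    exact absurd hl2 (by decide)
  obtain ⟨a, ha⟩ := quadraticChar_exists_neg_one h0
  refine ⟨a.val, ?_, ?_⟩
  · rw [Nat.coprime_comm, Nat.Prime.coprime_iff_not_dvd (Fact.out : l.Prime)]
    intro h
    have h1 : a = 0 := by
      rw [← ZMod.natCast_zmod_val a]
      exact (ZMod.natCast_eq_zero_iff _ _).2 h
    rw [h1] at ha
    simp at ha
  · rw [qc_apply, ZMod.natCast_zmod_val, ha]
    norm_num

lemma not_two_primes_aux {l₁ l₂ p k : ℕ} [Fact l₁.Prime] [Fact l₂.Prime] (hne : l₁ ≠ l₂)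
    (hodd₁ : Odd l₁) (hodd₂ : Odd l₂) (hk : 0 < k) (hb : Bal (l₁ * l₂) p k)
    (hp4 : p % 4 = 1) (hp₁ : p.Coprime l₁) (hp₂ : p.Coprime l₂) (h41 : l₁ % 4 = 1)
    (ψ₂ : DirichletCharacter ℂ l₂) (hψ₂ : ψ₂ (-1) = 1)
    (h : qc l₁ (p : ZMod l₁) * ψ₂ (p : ZMod l₂) = 1) : False := by
  have hl₁ := (Fact.out : l₁.Prime)
  have hl₂ := (Fact.out : l₂.Prime)
  have hco : l₁.Coprime l₂ := (Nat.coprime_primes hl₁ hl₂).2 hne
  obtain ⟨r, hr, hr'⟩ := exists_nonres hodd₁
  obtain ⟨w, hw1, hw2⟩ := Nat.chineseRemainder hco r 1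
  have hw1' : w.Coprime l₁ := by
    have := hw1.gcd_eq
    unfold Nat.Coprime at hr ⊢
    rw [← hr, this]
  have hw2' : w.Coprime l₂ := by
    have := hw2.gcd_eq
    unfold Nat.Coprime
    rw [this]
    simp
  have hpos : 0 < l₁ * l₂ := Nat.mul_pos hl₁.pos hl₂.pos
  set ψ : DirichletCharacter ℂ (l₁ * l₂) :=
    DirichletCharacter.changeLevel (dvd_mul_right l₁ l₂) (qc l₁) *
      DirichletCharacter.changeLevel (dvd_mul_left l₂ l₁) ψ₂ with hψ
  have hψb : ∀ b : ℕ, b.Coprime (l₁ * l₂) → ψ (b : ZMod (l₁ * l₂)) =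
      qc l₁ (b : ZMod l₁) * ψ₂ (b : ZMod l₂) := by
    intro b hb'
    rw [hψ, MulChar.mul_apply, changeLevel_nat _ _ b hb', changeLevel_nat _ _ b hb']
  refine no_even_char (hodd₁.mul hodd₂) hk hb hp4 (hp₁.mul_right hp₂) ψ ?_ ?_ w
    (hw1'.mul_right hw2') ?_
  · have h1 : (l₁ * l₂ - 1).Coprime (l₁ * l₂) := by
      have := Nat.coprime_self_sub_right (show 1 ≤ l₁ * l₂ by omega)
      rw [Nat.coprime_comm]
      exact (this.2 (Nat.coprime_one_right _))
    have h2 := hψb _ h1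
    have e : (1 : ℕ) ≤ l₁ * l₂ := by omega
    have e1 : ((l₁ * l₂ - 1 : ℕ) : ZMod (l₁ * l₂)) = -1 := by
      rw [Nat.cast_sub e, ZMod.natCast_self]
      simp
    have e2 : ((l₁ * l₂ - 1 : ℕ) : ZMod l₁) = -1 := by
      rw [Nat.cast_sub e, Nat.cast_mul, ZMod.natCast_self]
      simp
    have e3 : ((l₁ * l₂ - 1 : ℕ) : ZMod l₂) = -1 := by
      rw [Nat.cast_sub e, Nat.cast_mul, ZMod.natCast_self]
      simp
    rw [e1, e2, e3, hψ₂, qc_neg_one h41, mul_one] at h2
    exact h2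
  · rw [hψb p (hp₁.mul_right hp₂), h]
  · rw [hψb w (hw1'.mul_right hw2')]
    have h1 : (w : ZMod l₁) = (r : ZMod l₁) := (ZMod.natCast_eq_natCast_iff _ _ _).2 hw1
    have h2 : (w : ZMod l₂) = ((1 : ℕ) : ZMod l₂) := (ZMod.natCast_eq_natCast_iff _ _ _).2 hw2
    rw [h1, h2, hr', Nat.cast_one, map_one]
    norm_num

/-- two distinct primes cannot both divide `n` -/
theorem not_two_primes {l₁ l₂ p k : ℕ} (hl₁ : l₁.Prime) (hl₂ : l₂.Prime) (hne : l₁ ≠ l₂)
    (hodd₁ : Odd l₁) (hodd₂ : Odd l₂) (hk : 0 < k) (hb : Bal (l₁ * l₂) p k)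
    (hp4 : p % 4 = 1) (hp₁ : p.Coprime l₁) (hp₂ : p.Coprime l₂) : False := by
  have h41 := prime_mod_four hl₁ hodd₁ hk (bal_dvd (hodd₁.mul hodd₂) (dvd_mul_right _ _) hb)
    hp4 hp₁
  have h42 := prime_mod_four hl₂ hodd₂ hk (bal_dvd (hodd₁.mul hodd₂) (dvd_mul_left _ _) hb)
    hp4 hp₂
  have : Fact l₁.Prime := ⟨hl₁⟩
  have : Fact l₂.Prime := ⟨hl₂⟩
  have hb' : Bal (l₂ * l₁) p k := by rwa [mul_comm]
  rcases qc_dichotomy hp₁ with h1 | h1
  · refine not_two_primes_aux hne hodd₁ hodd₂ hk hb hp4 hp₁ hp₂ h41 1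
      (MulChar.one_apply isUnit_one.neg) ?_
    have : IsUnit (p : ZMod l₂) := (ZMod.isUnit_iff_coprime p l₂).2 hp₂
    rw [h1, MulChar.one_apply this, one_mul]
  · rcases qc_dichotomy hp₂ with h2 | h2
    · refine not_two_primes_aux hne.symm hodd₂ hodd₁ hk hb' hp4 hp₂ hp₁ h42 1
        (MulChar.one_apply isUnit_one.neg) ?_
      have : IsUnit (p : ZMod l₁) := (ZMod.isUnit_iff_coprime p l₁).2 hp₁
      rw [h2, MulChar.one_apply this, one_mul]
    · refine not_two_primes_aux hne hodd₁ hodd₂ hk hb hp4 hp₁ hp₂ h41 (qc l₂)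
        (qc_neg_one h42) ?_
      rw [h1, h2]
      norm_num

/-- **Combinatorial part.** -/
theorem prime_power_of_bal {n p k : ℕ} (hn : Odd n) (hn1 : 1 < n) (hk : 0 < k) (hb : Bal n p k)
    (hp4 : p % 4 = 1) (hpn : p.Coprime n) :
    ∃ l a : ℕ, l.Prime ∧ l % 4 = 1 ∧ 0 < a ∧ n = l ^ a := by
  obtain ⟨l, hl, hln⟩ := Nat.exists_prime_and_dvd hn1.ne'
  have hl2 : Odd l := Odd.of_dvd_nat hn hln
  have h4 := prime_mod_four hl hl2 hk (bal_dvd hn hln hb) hp4 (hpn.coprime_dvd_right hln)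
  have h5 : ∀ {q : ℕ}, q.Prime → q ∣ n → q = l := by
    intro q hq hqn
    by_contra hne
    have hq2 : Odd q := Odd.of_dvd_nat hn hqn
    have hco : q.Coprime l := (Nat.coprime_primes hq hl).2 hne
    exact not_two_primes hq hl hne hq2 hl2 hk (bal_dvd hn (hco.mul_dvd_of_dvd_of_dvd hqn hln) hb)
      hp4 (hpn.coprime_dvd_right hqn) (hpn.coprime_dvd_right hln)
  have h6 := Nat.eq_prime_pow_of_unique_prime_dvd (by omega : n ≠ 0) h5
  refine ⟨l, n.primeFactorsList.length, hl, h4, ?_, h6⟩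
  rw [Nat.pos_iff_ne_zero]
  intro h
  rw [h, pow_zero] at h6
  omega

end Pool.Agent.R414.CB
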