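import Mathlib

set_option autoImplicit false

/-! The curve `y ^ 2 = x ^ 4 - 4 x ^ 2 + 2` over a field with `25` elements. -/

open Finset

namespace Pool.Agent.R414.CB

/-- coordinates with respect to `1`, `√2` -/
abbrev M5 := ZMod 5 × ZMod 5

/-- the equation of the curve in coordinates -/
abbrev eqn (t : M5 × M5) : Prop :=
  t.2.1 ^ 2 + 2 * t.2.2 ^ 2 = (t.1.1 ^ 2 + 2 * t.1.2 ^ 2) ^ 2 + 2 * (2 * t.1.1 * t.1.2) ^ 2 -
      4 * (t.1.1 ^ 2 + 2 * t.1.2 ^ 2) + 2 ∧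
  2 * t.2.1 * t.2.2 = 2 * (t.1.1 ^ 2 + 2 * t.1.2 ^ 2) * (2 * t.1.1 * t.1.2) -
    4 * (2 * t.1.1 * t.1.2)

lemma card_eqn : (univ.filter fun t : M5 × M5 => eqn t).card = 34 := by decide +kernel

instance fact5 : Fact (Nat.Prime 5) := ⟨by norm_num⟩

lemma aux5 : ∀ a b : ZMod 5, a ^ 2 = 2 * b ^ 2 → a = 0 ∧ b = 0 := by decide

variable {K : Type} [Field K] [CharP K 5]

/-- the coordinates -/
def emb (s : K) (a : M5) : K := (ZMod.castHom dvd_rfl K a.1 : K) + (ZMod.castHom dvd_rfl K a.2) * s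

lemma emb_inj {s : K} (hs : s ^ 2 = 2) : Function.Injective (emb s) := by
  set c : ZMod 5 →+* K := ZMod.castHom dvd_rfl K with hc
  have hcinj : Function.Injective c := c.injective
  have h0 : ∀ a b : ZMod 5, c a + c b * s = 0 → a = 0 ∧ b = 0 := by
    intro a b h
    have h1 : c (a ^ 2) = c (2 * b ^ 2) := by
      have h2 : c a = - (c b * s) := by linear_combination h
      rw [map_pow, map_mul, map_pow, h2]
      have h3 : c 2 = 2 := map_ofNat c 2
      rw [h3]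
      linear_combination (c b) ^ 2 * hs
    exact aux5 a b (hcinj h1)
  intro x y hxy
  unfold emb at hxy
  have h1 : c (x.1 - y.1) + c (x.2 - y.2) * s = 0 := by
    rw [map_sub, map_sub]
    linear_combination hxy
  obtain ⟨h2, h3⟩ := h0 _ _ h1
  exact Prod.ext (sub_eq_zero.1 h2) (sub_eq_zero.1 h3)

lemma emb_sq {s : K} (hs : s ^ 2 = 2) (a : M5) :
    emb s a ^ 2 = emb s (a.1 ^ 2 + 2 * a.2 ^ 2, 2 * a.1 * a.2) := by
  unfold emb
  simp only [map_add, map_mul, map_pow, map_ofNat]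
  linear_combination (ZMod.castHom dvd_rfl K a.2) ^ 2 * hs

lemma emb_eqn {s : K} (hs : s ^ 2 = 2) (t : M5 × M5) :
    emb s t.2 ^ 2 = emb s t.1 ^ 4 - 4 * emb s t.1 ^ 2 + 2 ↔ eqn t := by
  have h1 : emb s t.1 ^ 4 - 4 * emb s t.1 ^ 2 + 2 =
      emb s ((t.1.1 ^ 2 + 2 * t.1.2 ^ 2) ^ 2 + 2 * (2 * t.1.1 * t.1.2) ^ 2 -
      4 * (t.1.1 ^ 2 + 2 * t.1.2 ^ 2) + 2, 2 * (t.1.1 ^ 2 + 2 * t.1.2 ^ 2) * (2 * t.1.1 * t.1.2) -
    4 * (2 * t.1.1 * t.1.2)) := by
    rw [show emb s t.1 ^ 4 = (emb s t.1 ^ 2) ^ 2 by ring, emb_sq hs, emb_sq hs]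
    unfold emb
    simp only [map_add, map_sub, map_mul, map_pow, map_ofNat]
    ring
  rw [h1, emb_sq hs, (emb_inj hs).eq_iff, Prod.mk.injEq]

theorem card_H4 [Fintype K] (hK : Fintype.card K = 25) :
    Nat.card {P : K × K // P.2 ^ 2 = P.1 ^ 4 - 4 * P.1 ^ 2 + 2} = 34 := by
  have h2 : IsSquare (2 : K) := by
    have hc2 : ringChar K ≠ 2 := by
      rw [ringChar.eq K 5]
      norm_num
    rw [FiniteField.isSquare_iff hc2, hK]
    · have h5 : (5 : K) = 0 := by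
        have := CharP.cast_eq_zero K 5
        exact_mod_cast this
      have : (2 : K) ^ (25 / 2) = 1 + 5 * 819 := by norm_num
      rw [this, h5]
      ring
    · intro h
      have h5 : (5 : K) = 0 := by
        have := CharP.cast_eq_zero K 5
        exact_mod_cast this
      have : (1 : K) = 5 - 2 * 2 := by norm_num
      rw [h5, h] at this
      simp at this
  obtain ⟨s, hs⟩ := h2
  have hs2 : s ^ 2 = 2 := by rw [hs, pow_two]
  have hbij : Function.Bijective (emb s) := by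
    rw [Fintype.bijective_iff_injective_and_card]
    refine ⟨emb_inj hs2, ?_⟩
    rw [hK]
    decide
  let e : M5 ≃ K := Equiv.ofBijective _ hbij
  have h3 : Nat.card {P : K × K // P.2 ^ 2 = P.1 ^ 4 - 4 * P.1 ^ 2 + 2} =
      Nat.card {t : M5 × M5 // eqn t} := by
    symm
    refine Nat.card_congr (Equiv.subtypeEquiv (Equiv.prodCongr e e) ?_)
    intro t
    exact (emb_eqn hs2 t).symm
  rw [h3, Nat.card_eq_fintype_card, Fintype.card_subtype]
  exact card_eqn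

end Pool.Agent.R414.CB
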