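import Pool.Agent.R414.CB.Cnt

set_option autoImplicit false
set_option linter.unusedSectionVars false

/-! The extremal case over the complex numbers. -/

open Finset Polynomial

namespace Pool.Agent.R414.CB

variable {F E : Type} [Field F] [Fintype F] [DecidableEq F] [Field E] [Fintype E] [DecidableEq E]
  [Algebra F E]

lemma sum_BB_eq (hF : ringChar F ≠ 2) (d : ℕ) :
    ∑ Θ ∈ univ.filter (fun Θ : MulChar E ℂ => Θ ^ (2 * d) = etaN F E ℂ), jB F ℂ Θ =
      ∑ Θ ∈ BB F E ℂ d, jB F ℂ Θ := by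
  symm
  apply sum_subset
  · intro Θ hΘ
    rw [mem_BB] at hΘ
    rw [mem_filter]
    exact ⟨mem_univ _, hΘ.1⟩
  · intro Θ h1 h2
    rw [mem_filter] at h1
    obtain ⟨ψ, hψ⟩ := exists_primitive (F := F)
    apply jB_eq_zero hF _ hψ
    intro h3
    exact h2 (mem_BB.2 ⟨h1.2, h3⟩)

lemma arith {d g₁ g₂ : ℕ} (hd : 0 < d) (h : g₁ * g₂ ∣ d) (h1 : d + 1 ≤ g₁ + g₂) :
    g₁ = d ∨ g₂ = d := by
  have h0 : g₁ * g₂ ≤ d := Nat.le_of_dvd hd h
  rcases Nat.eq_zero_or_pos g₁ with h2 | h2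
  · rw [h2, zero_mul] at h
    have := Nat.eq_zero_of_zero_dvd h
    omega
  rcases Nat.eq_zero_or_pos g₂ with h3 | h3
  · rw [h3, mul_zero] at h
    have := Nat.eq_zero_of_zero_dvd h
    omega
  have h4 : g₁ = 1 ∨ g₂ = 1 := by
    by_contra hne
    rw [not_or] at hne
    obtain ⟨a, rfl⟩ : ∃ a, g₁ = a + 2 := ⟨g₁ - 2, by omega⟩
    obtain ⟨b, rfl⟩ : ∃ b, g₂ = b + 2 := ⟨g₂ - 2, by omega⟩
    nlinarith
  rcases h4 with rfl | rfl
  · right
    rw [one_mul] at h0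
    omega
  · left
    rw [mul_one] at h0
    omega

theorem extremal (hc : Fintype.card E = Fintype.card F ^ 2) (hF : ringChar F ≠ 2)
    (h4 : Fintype.card F % 4 = 1) {r : ℕ} (hr : Fintype.card F = r ^ 2) {d : ℕ} (hd : Odd d)
    (hS : ∑ x : F, quadraticChar F ((phi F d).eval x) = ((d : ℤ) - 1) * r) :
    (d ∣ Fintype.card F - 1 ∨ d ∣ Fintype.card F + 1) ∧
    (∀ θ ∈ AA F ℂ d \ AA F ℂ 1, jA ℂ θ = (r : ℂ)) ∧
    (∀ Θ ∈ BB F E ℂ d \ BB F E ℂ 1, jB F ℂ Θ = ((Fintype.card F : ℂ) - 1) * r) := by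
  have hq1 : 1 < Fintype.card F := Fintype.one_lt_card
  have hd0 : 0 < d := hd.pos
  have hr0 : 0 < r := by
    rcases Nat.eq_zero_or_pos r with h | h
    · rw [h] at hr
      omega
    · exact h
  have m1 := main_sum (F := F) (E := E) ℂ hc hd
  have m2 := main_sum (F := F) (E := E) ℂ hc odd_one
  rw [sum_BB_eq hF] at m1 m2
  have e1 : ∑ x : F, eta F ℂ ((phi F 1).eval x) = 0 := by
    have : ∀ x : F, eta F ℂ ((phi F 1).eval x) = eta F ℂ x := by
      intro x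
      unfold phi
      rw [dickson_one, eval_X]
    rw [sum_congr rfl fun x _ => this x]
    exact MulChar.sum_eq_zero_of_ne_one (eta_ne_one ℂ hF)
  have e2 : ∑ x : F, eta F ℂ ((phi F d).eval x) = ((d : ℂ) - 1) * r := by
    have h1 := congrArg (Int.cast (R := ℂ)) hS
    push_cast at h1
    rw [← h1]
    rfl
  rw [e1, mul_zero] at m2
  rw [e2] at m1
  have s1 := sum_sdiff (f := fun θ => jA ℂ θ) (AA_sub (F := F) (K := ℂ) hd)
  have s2 := sum_sdiff (f := fun Θ => jB F ℂ Θ) (BB_sub (F := F) (E := E) (K := ℂ) hd)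
  have hAA : ∀ d : ℕ, ∑ θ ∈ univ.filter (fun θ : MulChar F ℂ => θ ^ (2 * d) = eta F ℂ), jA ℂ θ =
    ∑ θ ∈ AA F ℂ d, jA ℂ θ := fun d => rfl
  rw [hAA] at m1 m2
  have hsum : ((((Fintype.card F : ℝ) - 1 : ℝ)) : ℂ) *
      ∑ θ ∈ AA F ℂ d \ AA F ℂ 1, jA ℂ θ + ∑ Θ ∈ BB F E ℂ d \ BB F E ℂ 1, jB F ℂ Θ =
      (((2 * ((d : ℝ) - 1)) * (((Fintype.card F : ℝ) - 1) * r) : ℝ) : ℂ) := by
    push_cast
    linear_combination m1 - m2 + ((Fintype.card F : ℂ) - 1) * s1 + s2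
  have hR : (0 : ℝ) < r := by exact_mod_cast hr0
  have hQ : (0 : ℝ) < (Fintype.card F : ℝ) - 1 := by
    rw [sub_pos]
    exact_mod_cast hq1
  have hf : ∀ θ ∈ AA F ℂ d \ AA F ℂ 1, ‖jA ℂ θ‖ = (r : ℝ) := by
    intro θ hθ
    rw [mem_sdiff, mem_AA] at hθ
    have h0 : θ ≠ 1 := by
      rintro rfl
      apply eta_ne_one ℂ hF
      rw [← hθ.1, one_pow]
    have h1 : θ * eta F ℂ ≠ 1 := by
      intro h
      apply eta_ne_one ℂ hF
      have h2 := congrArg (fun χ => χ ^ (2 * d)) h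
      simp only [mul_pow, one_pow, hθ.1, eta_pow_even, mul_one] at h2
      exact h2
    have h2 := norm_jA h0 hF h1
    rw [hr] at h2
    push_cast at h2
    exact (pow_left_inj₀ (norm_nonneg _) hR.le two_ne_zero).1 h2
  have hg : ∀ Θ ∈ BB F E ℂ d \ BB F E ℂ 1, ‖jB F ℂ Θ‖ = ((Fintype.card F : ℝ) - 1) * r := by
    intro Θ hΘ
    rw [mem_sdiff, mem_BB] at hΘ
    have h2 := norm_jB hc hF hΘ.1.2
    have h3 : ((Fintype.card F : ℝ) - 1) ^ 2 * Fintype.card F =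
        (((Fintype.card F : ℝ) - 1) * r) ^ 2 := by
      rw [mul_pow]
      congr 1
      exact_mod_cast hr
    rw [h3] at h2
    exact (pow_left_inj₀ (norm_nonneg _) (mul_pos hQ hR).le two_ne_zero).1 h2
  have c1 : (AA F ℂ d \ AA F ℂ 1).card + 2 ≤ 2 * Nat.gcd d (Fintype.card F - 1) := by
    have h1 := card_AA_le (F := F) (K := ℂ) hd0
    have h2 := two_le_card_AA (F := F) (K := ℂ) hF (by omega)
    have h3 := card_sdiff_add_card_eq_card (AA_sub (F := F) (K := ℂ) hd)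
    omega
  have c2 : (BB F E ℂ d \ BB F E ℂ 1).card + 2 ≤ 2 * Nat.gcd d (Fintype.card F + 1) := by
    have h1 := card_BB_le (F := F) (E := E) (K := ℂ) hc hd0
    have h2 := two_le_card_BB (F := F) (E := E) (K := ℂ) hc hF h4
    have h3 := card_sdiff_add_card_eq_card (BB_sub (F := F) (E := E) (K := ℂ) hd)
    omega
  have g12 : Nat.gcd d (Fintype.card F - 1) * Nat.gcd d (Fintype.card F + 1) ∣ d := by
    apply Nat.Coprime.mul_dvd_of_dvd_of_dvd _ (Nat.gcd_dvd_left _ _) (Nat.gcd_dvd_left _ _)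
    set g := Nat.gcd (Nat.gcd d (Fintype.card F - 1)) (Nat.gcd d (Fintype.card F + 1)) with hg
    have h1 : g ∣ Fintype.card F - 1 := (Nat.gcd_dvd_left _ _).trans (Nat.gcd_dvd_right _ _)
    have h2 : g ∣ Fintype.card F + 1 := (Nat.gcd_dvd_right _ _).trans (Nat.gcd_dvd_right _ _)
    have h3 : g ∣ 2 := by
      have h4 := Nat.dvd_sub h2 h1
      rwa [show Fintype.card F + 1 - (Fintype.card F - 1) = 2 by omega] at h4
    have h5 : Odd g := Odd.of_dvd_nat hd ((Nat.gcd_dvd_left _ _).trans (Nat.gcd_dvd_left _ _))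
    change g = 1
    have h6 := Nat.le_of_dvd two_pos h3
    have h7 := h5.pos
    have h8 : g ≠ 2 := by
      intro h9
      rw [h9] at h5
      exact absurd h5 (by decide)
    omega
  have hge := card_ge_of_sum _ _ _ _ hR hQ hf hg hsum
  have hge' : 2 * (d - 1) ≤ (AA F ℂ d \ AA F ℂ 1).card + (BB F E ℂ d \ BB F E ℂ 1).card := by
    have h1 : ((2 * (d - 1) : ℕ) : ℝ) = 2 * ((d : ℝ) - 1) := by
      rw [Nat.cast_mul, Nat.cast_sub hd0]
      push_cast
      ring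
    rw [← h1] at hge
    exact_mod_cast hge
  have hg1 := arith hd0 g12 (by omega)
  have hle' : (AA F ℂ d \ AA F ℂ 1).card + (BB F E ℂ d \ BB F E ℂ 1).card ≤ 2 * (d - 1) := by
    have h0 : Nat.gcd d (Fintype.card F - 1) * Nat.gcd d (Fintype.card F + 1) ≤ d :=
      Nat.le_of_dvd hd0 g12
    have p1 : 0 < Nat.gcd d (Fintype.card F - 1) := Nat.gcd_pos_of_pos_left _ hd0
    have p2 : 0 < Nat.gcd d (Fintype.card F + 1) := Nat.gcd_pos_of_pos_left _ hd0
    rcases hg1 with h | h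
    · rw [h] at h0 c1
      have : Nat.gcd d (Fintype.card F + 1) = 1 := by
        have h5 : Nat.gcd d (Fintype.card F + 1) ≤ 1 :=
          Nat.le_of_mul_le_mul_left (by simpa using h0) hd0
        omega
      omega
    · rw [h] at h0 c2
      have : Nat.gcd d (Fintype.card F - 1) = 1 := by
        have h5 : Nat.gcd d (Fintype.card F - 1) ≤ 1 :=
          Nat.le_of_mul_le_mul_right (by simpa using h0) hd0
        omega
      omega
  have hcard : (((AA F ℂ d \ AA F ℂ 1).card : ℕ) : ℝ) + (BB F E ℂ d \ BB F E ℂ 1).card ≤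
      2 * ((d : ℝ) - 1) := by
    have h1 : ((2 * (d - 1) : ℕ) : ℝ) = 2 * ((d : ℝ) - 1) := by
      rw [Nat.cast_mul, Nat.cast_sub hd0]
      push_cast
      ring
    rw [← h1]
    exact_mod_cast hle'
  obtain ⟨r1, r2⟩ := eq_of_sum _ _ _ _ hR hQ hf hg hsum hcard
  refine ⟨?_, ?_, ?_⟩
  · rcases hg1 with h | h
    · left
      rw [← h]
      exact Nat.gcd_dvd_right _ _
    · right
      rw [← h]
      exact Nat.gcd_dvd_right _ _
  · intro θ hθ
    rw [r1 θ hθ]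
    norm_cast
  · intro Θ hΘ
    rw [r2 Θ hΘ]
    push_cast
    rfl

end Pool.Agent.R414.CB
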