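import Mathlib

set_option autoImplicit false
set_option linter.unusedSectionVars false

/-! The substitution `x = t + 1 / t` over a finite field and its quadratic extension. -/

open Finset

namespace Pool.Agent.R414.CB

variable {F E : Type} [Field F] [Fintype F] [DecidableEq F] [Field E] [Fintype E] [DecidableEq E]
  [Algebra F E]

section

variable (hc : Fintype.card E = Fintype.card F ^ 2)

include hc

lemma finrank_two : Module.finrank F E = 2 := by
  have h1 := Module.card_eq_pow_finrank (K := F) (V := E)
  rw [hc] at h1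
  exact (Nat.pow_right_injective (Fintype.one_lt_card : 2 ≤ Fintype.card F) h1).symm

lemma trace_eq (x : E) : algebraMap F E (Algebra.trace F E x) = x + x ^ Fintype.card F := by
  rw [FiniteField.algebraMap_trace_eq_sum_pow, finrank_two hc, Nat.card_eq_fintype_card,
    sum_range_succ, sum_range_one, pow_zero, pow_one, pow_one]

lemma norm_eq (x : E) : algebraMap F E (Algebra.norm F x) = x ^ (Fintype.card F + 1) := by
  rw [FiniteField.algebraMap_norm_eq_prod_pow, finrank_two hc, Nat.card_eq_fintype_card,
    prod_range_succ, prod_range_one, pow_zero, pow_one, pow_one, pow_succ']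

lemma card_units_eq : (Fintype.card F - 1) * (Fintype.card F + 1) = Fintype.card Eˣ := by
  rw [Fintype.card_units, hc]
  obtain ⟨m, hm⟩ : ∃ m, Fintype.card F = m + 1 := ⟨Fintype.card F - 1, by
    have := Fintype.card_pos (α := F); omega⟩
  rw [hm]
  have : (m + 1) ^ 2 = m * (m + 2) + 1 := by ring
  rw [this]
  simp

lemma pow_mu (z : Eˣ) : (z ^ (Fintype.card F - 1)) ^ (Fintype.card F + 1) = 1 := by
  rw [← pow_mul, card_units_eq hc, pow_card_eq_one]

lemma trace_pow (z : Eˣ) : algebraMap F E (Algebra.trace F E ((z : E) ^ (Fintype.card F - 1))) =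
    ((z ^ (Fintype.card F - 1) : Eˣ) : E) + (((z ^ (Fintype.card F - 1))⁻¹ : Eˣ) : E) := by
  rw [trace_eq hc, ← Units.val_pow_eq_pow_val, ← Units.val_pow_eq_pow_val]
  congr 2
  have h := pow_mu hc z
  rw [pow_succ] at h
  exact eq_inv_of_mul_eq_one_left h

end

lemma add_inv_eq {k : Type} [Field k] {a b : kˣ} (h : (a : k) + (a⁻¹ : kˣ) = b + (b⁻¹ : kˣ)) :
    a = b ∨ a = b⁻¹ := by
  have ha := a.ne_zero
  have hb := b.ne_zero
  rw [Units.val_inv_eq_inv_val, Units.val_inv_eq_inv_val] at h
  have h1 : ((a : k) - b) * ((a : k) * b - 1) = 0 := by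
    have h2 : ((a : k) + (a : k)⁻¹) * (a * b) = ((b : k) + (b : k)⁻¹) * (a * b) := by rw [h]
    have e1 : ((a : k) + (a : k)⁻¹) * (a * b) = a ^ 2 * b + b := by field_simp
    have e2 : ((b : k) + (b : k)⁻¹) * (a * b) = a * b ^ 2 + a := by field_simp
    rw [e1, e2] at h2
    linear_combination h2
  rcases mul_eq_zero.1 h1 with h2 | h2
  · left
    exact Units.ext (sub_eq_zero.1 h2)
  · right
    rw [eq_inv_iff_mul_eq_one]
    exact Units.ext (sub_eq_zero.1 h2)

lemma card_pow_eq_le {n : ℕ} (hn : 0 < n) (r : Eˣ) :
    (univ.filter fun z : Eˣ => z ^ n = r).card ≤ n := by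
  classical
  rcases (univ.filter fun z : Eˣ => z ^ n = r).eq_empty_or_nonempty with h | ⟨z₀, h⟩
  · rw [h, card_empty]
    exact Nat.zero_le _
  · rw [mem_filter] at h
    calc (univ.filter fun z : Eˣ => z ^ n = r).card
        ≤ (univ.filter fun z : Eˣ => z ^ n = 1).card := by
          refine card_le_card_of_injOn (fun z => z * z₀⁻¹) ?_ ?_
          · intro z hz
            rw [mem_coe, mem_filter] at hz ⊢
            refine ⟨mem_univ _, ?_⟩
            rw [mul_pow, inv_pow, hz.2, h.2, mul_inv_cancel]
          · intro z _ z' _ h'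
            exact mul_right_cancel h'
      _ ≤ n := IsCyclic.card_pow_eq_one_le hn

variable (F E) in
/-- the fibre of `t ↦ t + 1 / t` -/
def RR (x : F) : Finset Fˣ := univ.filter fun t : Fˣ => (t : F) + (t⁻¹ : Fˣ) = x

variable (F E) in
/-- the fibre of `z ↦ Tr (z ^ (q - 1))` -/
noncomputable def ZZ (x : F) : Finset Eˣ :=
  univ.filter fun z : Eˣ => Algebra.trace F E ((z : E) ^ (Fintype.card F - 1)) = x

section

variable (hc : Fintype.card E = Fintype.card F ^ 2)

include hc

lemma fib_le (x : F) : (Fintype.card F - 1) * (RR F x).card + (ZZ F E x).card ≤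
    2 * (Fintype.card F - 1) := by
  have hq : 1 < Fintype.card F := Fintype.one_lt_card
  have hq0 : 0 < Fintype.card F - 1 := by omega
  rcases (RR F x).eq_empty_or_nonempty with hR | ⟨t₀, ht₀⟩
  · rw [hR, card_empty, mul_zero, zero_add]
    rcases (ZZ F E x).eq_empty_or_nonempty with hZ | ⟨z₀, hz₀⟩
    · rw [hZ, card_empty]; exact Nat.zero_le _
    · unfold ZZ at hz₀
      rw [mem_filter] at hz₀
      have h1 : ZZ F E x ⊆ (univ.filter fun z : Eˣ => z ^ (Fintype.card F - 1) =
            z₀ ^ (Fintype.card F - 1)) ∪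
          (univ.filter fun z : Eˣ => z ^ (Fintype.card F - 1) =
            (z₀ ^ (Fintype.card F - 1))⁻¹) := by
        intro z hz
        unfold ZZ at hz
        rw [mem_filter] at hz
        rw [mem_union, mem_filter, mem_filter]
        have h2 := trace_pow hc z
        rw [hz.2, ← hz₀.2, trace_pow hc z₀] at h2
        rcases add_inv_eq h2.symm with h3 | h3
        · left; exact ⟨mem_univ _, h3⟩
        · right; exact ⟨mem_univ _, h3⟩
      calc (ZZ F E x).card ≤ _ := card_le_card h1
        _ ≤ _ + _ := card_union_le _ _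
        _ ≤ (Fintype.card F - 1) + (Fintype.card F - 1) :=
            add_le_add (card_pow_eq_le hq0 _) (card_pow_eq_le hq0 _)
        _ = _ := by ring
  · unfold RR at ht₀
    rw [mem_filter] at ht₀
    rcases (ZZ F E x).eq_empty_or_nonempty with hZ | ⟨z₀, hz₀⟩
    · rw [hZ, card_empty, add_zero, mul_comm]
      have h1 : RR F x ⊆ {t₀, t₀⁻¹} := by
        intro t ht
        unfold RR at ht
        rw [mem_filter] at ht
        rw [mem_insert, mem_singleton]
        exact add_inv_eq (ht.2.trans ht₀.2.symm)
      exact Nat.mul_le_mul_right _ ((card_le_card h1).trans card_le_two)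
    · have key : ∀ t ∈ RR F x, ∀ z ∈ ZZ F E x,
          z ^ (Fintype.card F - 1) = Units.map (algebraMap F E).toMonoidHom t := by
        intro t ht z hz
        unfold RR at ht
        unfold ZZ at hz
        rw [mem_filter] at ht hz
        set T := Units.map (algebraMap F E).toMonoidHom t with hT
        have h2 := trace_pow hc z
        have h3 : algebraMap F E x = (T : E) + (T⁻¹ : Eˣ) := by
          rw [← ht.2, map_add, hT, ← map_inv]
          rfl
        rw [hz.2, h3] at h2
        have h4 : T ^ (Fintype.card F - 1) = 1 := by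
          rw [hT, ← map_pow, ← Fintype.card_units, pow_card_eq_one, map_one]
        rcases add_inv_eq h2.symm with h5 | h5
        · exact h5
        · have h6 := pow_mu hc z
          rw [h5, inv_pow, inv_eq_one, show Fintype.card F + 1 = (Fintype.card F - 1) + 2 by omega,
            pow_add, h4, one_mul, pow_two] at h6
          rw [h5]
          exact inv_eq_of_mul_eq_one_right h6
      have h1 : RR F x ⊆ {t₀} := by
        intro t ht
        rw [mem_singleton]
        have h3 := key t ht z₀ hz₀
        have h4 := key t₀ (by unfold RR; rw [mem_filter]; exact ht₀) z₀ hz₀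
        rw [h3] at h4
        exact Units.map_injective (algebraMap F E).injective h4
      have h2 : ZZ F E x ⊆ univ.filter fun z : Eˣ => z ^ (Fintype.card F - 1) =
          Units.map (algebraMap F E).toMonoidHom t₀ := by
        intro z hz
        rw [mem_filter]
        exact ⟨mem_univ _, key t₀ (by unfold RR; rw [mem_filter]; exact ht₀) z hz⟩
      calc (Fintype.card F - 1) * (RR F x).card + (ZZ F E x).card
          ≤ (Fintype.card F - 1) * 1 + (Fintype.card F - 1) := by
            refine add_le_add (Nat.mul_le_mul_left _ ?_) ((card_le_card h2).trans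
              (card_pow_eq_le hq0 _))
            exact (card_le_card h1).trans (card_singleton _).le
        _ = _ := by ring

lemma fib_eq (x : F) : (Fintype.card F - 1) * (RR F x).card + (ZZ F E x).card =
    2 * (Fintype.card F - 1) := by
  have hq : 1 < Fintype.card F := Fintype.one_lt_card
  have h1 : ∑ x : F, (RR F x).card = Fintype.card F - 1 := by
    rw [← Fintype.card_units, ← card_univ (α := Fˣ)]
    exact (card_eq_sum_card_fiberwise (fun t _ => mem_univ _)).symm
  have h2 : ∑ x : F, (ZZ F E x).card = (Fintype.card F - 1) * (Fintype.card F + 1) := by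
    rw [card_units_eq hc, ← card_univ (α := Eˣ)]
    exact (card_eq_sum_card_fiberwise (fun t _ => mem_univ _)).symm
  have h3 : ∑ x : F, ((Fintype.card F - 1) * (RR F x).card + (ZZ F E x).card) =
      ∑ x : F, 2 * (Fintype.card F - 1) := by
    rw [sum_add_distrib, ← mul_sum, h1, h2, sum_const, card_univ, smul_eq_mul, ← mul_add]
    have : Fintype.card F - 1 + (Fintype.card F + 1) = 2 * Fintype.card F := by omega
    rw [this]
    ring
  exact (sum_eq_sum_iff_of_le fun x _ => fib_le hc x).1 h3 x (mem_univ x)

/-- the substitution -/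
theorem sum_subst {K : Type} [Field K] (f : F → K) :
    ((Fintype.card F : K) - 1) * ∑ t : Fˣ, f ((t : F) + (t⁻¹ : Fˣ)) +
      ∑ z : Eˣ, f (Algebra.trace F E ((z : E) ^ (Fintype.card F - 1))) =
    2 * ((Fintype.card F : K) - 1) * ∑ x : F, f x := by
  have hq : 1 ≤ Fintype.card F := Fintype.card_pos
  have h1 : ∑ t : Fˣ, f ((t : F) + (t⁻¹ : Fˣ)) = ∑ x : F, ((RR F x).card : K) * f x := by
    rw [← sum_fiberwise univ (fun t : Fˣ => (t : F) + (t⁻¹ : Fˣ))]
    refine sum_congr rfl fun x _ => ?_
    unfold RR
    rw [sum_congr rfl (g := fun _ => f x), sum_const, nsmul_eq_mul]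
    intro t ht
    rw [mem_filter] at ht
    rw [ht.2]
  have h2 : ∑ z : Eˣ, f (Algebra.trace F E ((z : E) ^ (Fintype.card F - 1))) =
      ∑ x : F, ((ZZ F E x).card : K) * f x := by
    rw [← sum_fiberwise univ
      (fun z : Eˣ => Algebra.trace F E ((z : E) ^ (Fintype.card F - 1)))]
    refine sum_congr rfl fun x _ => ?_
    unfold ZZ
    rw [sum_congr rfl (g := fun _ => f x), sum_const, nsmul_eq_mul]
    intro t ht
    rw [mem_filter] at ht
    rw [ht.2]
  rw [h1, h2, mul_sum, mul_sum, ← sum_add_distrib]
  refine sum_congr rfl fun x _ => ?_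
  have h3 := fib_eq hc x
  have h4 : ((Fintype.card F : K) - 1) * (RR F x).card + (ZZ F E x).card =
      2 * ((Fintype.card F : K) - 1) := by
    have := congrArg (Nat.cast (R := K)) h3
    push_cast [Nat.cast_sub hq] at this
    exact this
  linear_combination f x * h4

end

end Pool.Agent.R414.CB
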