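import Pool.Agent.R414.CB.Pad

set_option autoImplicit false
set_option linter.unusedSectionVars false

/-! Maximality gives balanced orbits. -/

open Finset Polynomial

namespace Pool.Agent.R414.CB

open Pool.Agent.Y145.DI

variable {F E : Type} [Field F] [Fintype F] [DecidableEq F] [Field E] [Fintype E] [DecidableEq E]
  [Algebra F E]
variable {p : ℕ} [Fact p.Prime]

lemma order_T {w : MulChar E (PadicAlgCl p)} (ho : orderOf w = Fintype.card E - 1) {N : ℕ}
    (hN0 : 0 < N) (hN : N ∣ Fintype.card E - 1) :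
    orderOf (w ^ ((Fintype.card E - 1) / N)) = N := by
  have hQ1 : 1 < Fintype.card E := Fintype.one_lt_card
  have hd : (Fintype.card E - 1) / N ≠ 0 := by
    have := Nat.div_pos (Nat.le_of_dvd (by omega) hN) hN0
    omega
  rw [orderOf_pow_of_dvd hd (by rw [ho]; exact Nat.div_dvd_of_dvd hN), ho,
    Nat.div_div_self hN (by omega)]

section

variable {T ε : MulChar E (PadicAlgCl p)} {d : ℕ} (hd : 0 < d) (hT : orderOf T = 4 * d)
  (hε : ε * ε = 1) (hε1 : ε ≠ 1)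

include hd hT hε hε1

lemma T_2d : T ^ (2 * d) = ε := by
  apply eq_of_order_two _ _ hε hε1
  · rw [← pow_add, show 2 * d + 2 * d = orderOf T by rw [hT]; ring, pow_orderOf_eq_one]
  · intro h1
    have := orderOf_dvd_of_pow_eq_one h1
    rw [hT] at this
    exact absurd (Nat.le_of_dvd (by omega) this) (by omega)

lemma eps_inv : ε⁻¹ = ε := inv_eq_of_mul_eq_one_left hε

lemma T_pow_2d {b : ℕ} (hb : Odd b) : ((T ^ b)⁻¹) ^ (2 * d) = ε := by
  rw [inv_pow, ← pow_mul, mul_comm b, pow_mul, T_2d hd hT hε hε1]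
  obtain ⟨r, rfl⟩ := hb
  rw [pow_succ, pow_mul, pow_two, hε, one_pow, one_mul, eps_inv hd hT hε hε1]

lemma T_sq_ne (hd2 : Odd d) {b : ℕ} (hb : Odd b) (hdb : ¬ d ∣ b) : ((T ^ b)⁻¹) ^ 2 ≠ ε := by
  intro h
  rw [inv_pow, ← pow_mul, inv_eq_iff_eq_inv, eps_inv hd hT hε hε1] at h
  have h1 : T ^ (b * 2 + 2 * d) = 1 := by
    rw [pow_add, h, T_2d hd hT hε hε1, hε]
  have h2 := orderOf_dvd_of_pow_eq_one h1
  rw [hT] at h2
  apply hdb
  have h3 : d ∣ b * 2 + 2 * d := (dvd_mul_left d 4).trans h2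
  have h4 : d ∣ b * 2 := (Nat.dvd_add_left (dvd_mul_left d 2)).1 h3
  exact Nat.Coprime.dvd_of_dvd_mul_right hd2.coprime_two_right h4

lemma T_mul {b : ℕ} : (T ^ b)⁻¹ * ε = (T ^ ((b + 2 * d) % (4 * d)))⁻¹ := by
  rw [← hT, pow_mod_orderOf, pow_add, mul_inv, T_2d hd hT hε hε1, eps_inv hd hT hε hε1]

end

lemma ringChar_ne_two [CharP F p] (hp : p % 4 = 1) : ringChar F ≠ 2 := by
  rw [ringChar.eq F p]
  rintro rfl
  omega

lemma card_mod_four {k : ℕ} (hp : p % 4 = 1) : p ^ k % 4 = 1 := by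
  rw [Nat.pow_mod, hp, one_pow]
  norm_num

lemma pow_ne_aux (m : ℕ) : ‖((p : ℕ) : PadicAlgCl p)‖ ^ m ≠ 0 :=
  (pow_pos (norm_p_lt (p := p)).1 m).ne'

lemma expo_inj {a b : ℕ} (h : ‖((p : ℕ) : PadicAlgCl p)‖ ^ a = ‖((p : ℕ) : PadicAlgCl p)‖ ^ b) :
    a = b :=
  (pow_right_strictAnti₀ (norm_p_lt (p := p)).1 (norm_p_lt (p := p)).2).injective h

/-- the split case -/
theorem bal_A [CharP F p] (hp4 : p % 4 = 1) {m : ℕ} (hm : 0 < m)
    (hq : Fintype.card F = p ^ (2 * m)) {d : ℕ} (hd : Odd d) (hdq : d ∣ Fintype.card F - 1)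
    (h : ∀ θ ∈ AA F ℂ d \ AA F ℂ 1, jA ℂ θ = ((p ^ m : ℕ) : ℂ)) : Bal d p (2 * m) := by
  have hd0 := hd.pos
  have hp : Odd p := by rw [Nat.odd_iff]; omega
  have hF := ringChar_ne_two (F := F) hp4
  have hq4 : Fintype.card F % 4 = 1 := by rw [hq]; exact card_mod_four hp4
  obtain ⟨w, ψ, hψ, hψc, hw, ho⟩ := exists_wp (p := p) F
  have hN : 4 * d ∣ Fintype.card F - 1 := by
    apply Nat.Coprime.mul_dvd_of_dvd_of_dvd _ _ hdq
    · rw [show (4 : ℕ) = 2 ^ 2 from rfl]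
      exact Nat.Coprime.pow_left 2 hd.coprime_two_left
    · omega
  have hT := order_T ho (by omega) hN
  set T := w ^ ((Fintype.card F - 1) / (4 * d)) with hTd
  have hε := eta_mul_self (F := F) (PadicAlgCl p)
  have hε1 := eta_ne_one (PadicAlgCl p) hF
  have hjA := transfer_A (L := PadicAlgCl p) h
  apply bal_of_mod hd0
  intro b hb hdb hb4
  have hb0 := hb.pos
  set b' := (b + 2 * d) % (4 * d) with hb'
  have hb'4 : b' < 4 * d := Nat.mod_lt _ (by omega)
  have hb'0 : 0 < b' := by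
    have h1 : Odd b' := by
      rw [hb', Nat.odd_iff, Nat.mod_mod_of_dvd _ (⟨2 * d, by ring⟩ : 2 ∣ 4 * d)]
      rw [Nat.odd_iff] at hb
      omega
    exact h1.pos
  have s1 := norm_gauss_eq w ψ hψ hψc hw ho hq hN (by omega) b hb0 hb4
  have s2 := norm_gauss_eq w ψ hψ hψc hw ho hq hN (by omega) b' hb'0 hb'4
  rw [← hTd] at s1 s2
  have hmem : (T ^ b)⁻¹ ∈ AA F (PadicAlgCl p) d \ AA F (PadicAlgCl p) 1 := by
    rw [mem_sdiff, mem_AA, mem_AA, mul_one]
    exact ⟨T_pow_2d hd0 hT hε hε1 hb, T_sq_ne hd0 hT hε hε1 hd hb hdb⟩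
  have hne : (T ^ b)⁻¹ * eta F (PadicAlgCl p) ≠ 1 := by
    intro h1
    apply hε1
    have h2 := congrArg (fun χ => χ ^ (2 * d)) h1
    simp only [mul_pow, one_pow, T_pow_2d hd0 hT hε hε1 hb, eta_pow_even, mul_one] at h2
    exact h2
  have g1 := jA_gauss hne ψ
  rw [hjA _ hmem, T_mul hd0 hT hε hε1, ← hb'] at g1
  have g2 := congrArg norm g1
  push_cast at g2
  rw [norm_mul, norm_mul, norm_mul, norm_pow, norm_char (neg_ne_zero.2 one_ne_zero), one_mul,
    norm_eta_gauss hF hψ hq] at g2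
  have g3 := mul_right_cancel₀ (pow_ne_aux m) g2
  rw [g3, s1] at s2
  exact card_of_expo_A hd0 hp hb (expo_inj s2)

/-- the nonsplit case -/
theorem bal_B [CharP F p] (hp4 : p % 4 = 1) (hc : Fintype.card E = Fintype.card F ^ 2)
    {m : ℕ} (hm : 0 < m)
    (hq : Fintype.card F = p ^ (2 * m)) {d : ℕ} (hd : Odd d) (hdq : d ∣ Fintype.card F + 1)
    (h : ∀ Θ ∈ BB F E ℂ d \ BB F E ℂ 1,
      jB F ℂ Θ = ((Fintype.card F : ℂ) - 1) * ((p ^ m : ℕ) : ℂ)) : Bal d p (2 * m) := by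
  have hd0 := hd.pos
  have hp : Odd p := by rw [Nat.odd_iff]; omega
  have hF := ringChar_ne_two (F := F) hp4
  have hq4 : Fintype.card F % 4 = 1 := by rw [hq]; exact card_mod_four hp4
  have hEp : CharP E p := charP_of_injective_algebraMap (algebraMap F E).injective p
  have hq1 : 1 < Fintype.card F := Fintype.one_lt_card
  obtain ⟨_, ψF, hψF, -, -, -⟩ := exists_wp (p := p) F
  obtain ⟨w, ψ, hψ, hψc, hw, ho⟩ := exists_wp (p := p) E
  have hcE : Fintype.card E = p ^ (2 * (2 * m)) := by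
    rw [hc, hq, ← pow_mul, mul_comm]
  have hdE : d ∣ Fintype.card E - 1 := by
    rw [← Fintype.card_units, ← card_units_eq hc]
    exact hdq.mul_left _
  have hN : 4 * d ∣ Fintype.card E - 1 := by
    apply Nat.Coprime.mul_dvd_of_dvd_of_dvd _ _ hdE
    · rw [show (4 : ℕ) = 2 ^ 2 from rfl]
      exact Nat.Coprime.pow_left 2 hd.coprime_two_left
    · rw [← Fintype.card_units, ← card_units_eq hc]
      exact (by omega : 4 ∣ Fintype.card F - 1).mul_right _
  have hT := order_T ho (by omega) hN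
  set T := w ^ ((Fintype.card E - 1) / (4 * d)) with hTd
  have hε := etaN_mul_self (F := F) (E := E) (PadicAlgCl p)
  have hε1 := etaN_ne_one (F := F) (E := E) (PadicAlgCl p) hF
  have hjB := transfer_B (L := PadicAlgCl p) h
  apply bal_of_mod hd0
  intro b hb hdb hb4
  have hb0 := hb.pos
  have s1 := norm_gauss_eq w ψ hψ hψc hw ho hcE hN (by omega) b hb0 hb4
  rw [← hTd] at s1
  have hres : res F ((T ^ b)⁻¹) = eta F (PadicAlgCl p) := by
    apply res_eq_eta _ hc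
    obtain ⟨c, hc'⟩ : ∃ c, Fintype.card F + 1 = 2 * d * (2 * c + 1) := by
      obtain ⟨f, hf⟩ := hdq
      have h4 : Even f := by
        by_contra h5
        rw [Nat.not_even_iff_odd] at h5
        have h6 := hd.mul h5
        rw [← hf] at h6
        rw [Nat.odd_iff] at h6
        omega
      obtain ⟨g, hg⟩ := h4
      have h5 : Odd g := by
        by_contra h5
        rw [Nat.not_odd_iff_even] at h5
        obtain ⟨i, hi⟩ := h5
        have : Fintype.card F + 1 = 4 * (d * i) := by rw [hf, hg, hi]; ring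
        omega
      obtain ⟨c, hc⟩ := h5
      refine ⟨c, ?_⟩
      rw [hf, hg, hc]
      ring
    rw [hc', pow_mul, T_pow_2d hd0 hT hε hε1 hb]
    exact etaN_pow_odd _ ⟨c, rfl⟩
  have hmem : (T ^ b)⁻¹ ∈ BB F E (PadicAlgCl p) d \ BB F E (PadicAlgCl p) 1 := by
    rw [mem_sdiff, mem_BB, mem_BB, mul_one]
    exact ⟨⟨T_pow_2d hd0 hT hε hε1 hb, hres⟩, fun h1 => T_sq_ne hd0 hT hε hε1 hd hb hdb h1.1⟩
  have g1 := jB_gauss' hF hres ψF
  rw [hjB _ hmem] at g1
  have g2 := congrArg norm g1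
  push_cast at g2
  have hq0 : ‖((Fintype.card F : ℕ) : PadicAlgCl p) - 1‖ ≠ 0 := by
    rw [norm_ne_zero_iff, sub_ne_zero]
    exact_mod_cast hq1.ne'
  rw [norm_mul, norm_mul, norm_mul, norm_pow, norm_eta_gauss hF hψF hq,
    norm_gauss_indep _ (trChar_primitive hψF) hψ] at g2
  have g3 : ‖gaussSum (T ^ b)⁻¹ ψ‖ = ‖((p : ℕ) : PadicAlgCl p)‖ ^ (2 * m) := by
    apply mul_left_cancel₀ hq0
    rw [← g2, two_mul, pow_add]
    ring
  rw [g3, ← pow_mul] at s1
  have s2 := expo_inj s1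
  exact card_of_expo_B hd0 hd hp hq hq4 hdq hb (by rw [← s2]; ring)

end Pool.Agent.R414.CB
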