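import Pool.Agent.R414.CB.Sum

set_option autoImplicit false
set_option linter.unusedSectionVars false

/-! The sums `jA`, `jB` in terms of Gauss sums. -/

open Finset Polynomial

namespace Pool.Agent.R414.CB

variable {F E : Type} [Field F] [Fintype F] [DecidableEq F] [Field E] [Fintype E] [DecidableEq E]
  [Algebra F E]
variable {K : Type} [Field K] [CharZero K]

lemma jA_eq (θ : MulChar F K) : jA K θ = θ (-1) * jacobiSum θ (eta F K) := by
  unfold jA jacobiSum
  rw [mul_sum, ← Equiv.sum_comp (Equiv.neg F)]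
  refine sum_congr rfl fun s _ => ?_
  rw [Equiv.neg_apply, ← sub_eq_add_neg, ← mul_assoc, ← map_mul, neg_one_mul]

lemma jA_gauss {θ : MulChar F K} (h : θ * eta F K ≠ 1) (ψ : AddChar F K) :
    gaussSum (θ * eta F K) ψ * jA K θ = θ (-1) * (gaussSum θ ψ * gaussSum (eta F K) ψ) := by
  rw [jA_eq, ← jacobiSum_mul_nontrivial h ψ]
  ring

/-- restriction of a character to the subfield -/
def res (F : Type) {E : Type} [Field F] [Field E] [Algebra F E] (Θ : MulChar E K) :
    MulChar F K where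
  toFun c := Θ (algebraMap F E c)
  map_one' := by simp
  map_mul' x y := by simp
  map_nonunit' a ha := by
    have : a = 0 := by
      by_contra h
      exact ha (Ne.isUnit h)
    rw [this, map_zero, MulChar.map_zero]

lemma res_apply (Θ : MulChar E K) (c : F) : res F Θ c = Θ (algebraMap F E c) := rfl

variable (E) in
/-- `ψ ∘ Tr` -/
noncomputable def trChar (ψ : AddChar F K) : AddChar E K :=
  ψ.compAddMonoidHom (Algebra.trace F E).toAddMonoidHom

lemma trChar_apply (ψ : AddChar F K) (z : E) : trChar E ψ z = ψ (Algebra.trace F E z) := rfl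

lemma trChar_primitive {ψ : AddChar F K} (hψ : ψ.IsPrimitive) : (trChar E ψ).IsPrimitive := by
  apply AddChar.IsPrimitive.of_ne_one
  intro h
  have h1 : ψ ≠ 1 := by
    intro h2
    have := hψ (one_ne_zero)
    rw [AddChar.mulShift_one] at this
    exact this h2
  apply h1
  ext y
  obtain ⟨z, hz⟩ := Algebra.trace_surjective F E y
  rw [← hz, ← trChar_apply, h]
  simp

variable (K) in
lemma eta_ne_one (hF : ringChar F ≠ 2) : eta F K ≠ 1 := by
  obtain ⟨a, ha⟩ := quadraticChar_exists_neg_one hF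
  intro h
  have ha0 : a ≠ 0 := by
    rintro rfl
    simp at ha
  have h1 : eta F K a = 1 := by rw [h, MulChar.one_apply ha0.isUnit]
  rw [eta_apply, ha] at h1
  norm_num at h1

lemma eta_shift (hF : ringChar F ≠ 2) (ψ : AddChar F K) (y : F) :
    ∑ c : F, eta F K c * ψ (c * y) = eta F K y * gaussSum (eta F K) ψ := by
  by_cases hy : y = 0
  · subst hy
    rw [MulChar.map_zero, zero_mul]
    have : ∀ c : F, eta F K c * ψ (c * 0) = eta F K c := by
      intro c
      rw [mul_zero, AddChar.map_zero_eq_one, mul_one]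
    rw [sum_congr rfl fun c _ => this c]
    exact MulChar.sum_eq_zero_of_ne_one (eta_ne_one K hF)
  · have h1 := gaussSum_mulShift (eta F K) ψ (Units.mk0 y hy)
    have h2 : gaussSum (eta F K) (AddChar.mulShift ψ (Units.mk0 y hy : Fˣ)) =
        ∑ c : F, eta F K c * ψ (c * y) := by
      unfold gaussSum
      refine sum_congr rfl fun c _ => ?_
      rw [AddChar.mulShift_apply, Units.val_mk0, mul_comm y]
    rw [h2, Units.val_mk0] at h1
    have h3 := eta_sq K hy
    rw [← h1, ← mul_assoc, ← pow_two, h3, one_mul]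

lemma jB_gauss (hF : ringChar F ≠ 2) (Θ : MulChar E K) (ψ : AddChar F K) :
    gaussSum (eta F K) ψ * jB F K Θ =
      (∑ c : F, (eta F K * (res F Θ)⁻¹) c) * gaussSum Θ (trChar E ψ) := by
  unfold jB
  rw [mul_sum, sum_mul]
  have h1 : ∀ s : E, gaussSum (eta F K) ψ * (Θ s * eta F K (Algebra.trace F E s)) =
      ∑ c : F, eta F K c * (Θ s * ψ (Algebra.trace F E (algebraMap F E c * s))) := by
    intro s
    have h2 := eta_shift hF ψ (Algebra.trace F E s)
    have h3 : ∀ c : F, eta F K c * (Θ s * ψ (Algebra.trace F E (algebraMap F E c * s))) =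
        Θ s * (eta F K c * ψ (c * Algebra.trace F E s)) := by
      intro c
      rw [← Algebra.smul_def, map_smul, smul_eq_mul]
      ring
    rw [sum_congr rfl fun c _ => h3 c, ← mul_sum, h2]
    ring
  rw [sum_congr rfl fun s _ => h1 s, sum_comm]
  refine sum_congr rfl fun c _ => ?_
  rw [← mul_sum]
  by_cases hc0 : c = 0
  · subst hc0
    rw [MulChar.map_zero, MulChar.map_zero, zero_mul, zero_mul]
  · have hc1 : algebraMap F E c ≠ 0 := (_root_.map_ne_zero _).2 hc0
    have h4 : ∑ s : E, Θ s * ψ (Algebra.trace F E (algebraMap F E c * s)) =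
        gaussSum Θ (AddChar.mulShift (trChar E ψ) (Units.mk0 _ hc1 : Eˣ)) := by
      unfold gaussSum
      refine sum_congr rfl fun s _ => ?_
      rw [AddChar.mulShift_apply, Units.val_mk0, trChar_apply]
    have h5 : (res F Θ)⁻¹ c = Θ⁻¹ (algebraMap F E c) := by
      have h6 : (res F Θ)⁻¹ c * res F Θ c = 1 := by
        rw [← MulChar.mul_apply, inv_mul_cancel, MulChar.one_apply (Ne.isUnit hc0)]
      have h7 : Θ⁻¹ (algebraMap F E c) * res F Θ c = 1 := by
        rw [res_apply, ← MulChar.mul_apply, inv_mul_cancel, MulChar.one_apply (Ne.isUnit hc1)]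
      exact mul_right_cancel₀ (right_ne_zero_of_mul_eq_one h6) (h6.trans h7.symm)
    rw [h4, gaussSum_mulShift_eq, Units.val_mk0, MulChar.mul_apply, h5, mul_assoc]

lemma gauss_ne_zero {χ : MulChar F K} (hχ : χ ≠ 1) {ψ : AddChar F K} (hψ : ψ.IsPrimitive) :
    gaussSum χ ψ ≠ 0 := by
  have h := gaussSum_mul_gaussSum_eq_card hχ hψ
  intro h0
  rw [h0, zero_mul] at h
  have : (Fintype.card F : K) ≠ 0 := by exact_mod_cast Fintype.card_ne_zero
  exact this h.symm

lemma jB_eq_zero [IsAlgClosed K] (hF : ringChar F ≠ 2) {Θ : MulChar E K}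
    (h : res F Θ ≠ eta F K) {ψ : AddChar F K} (hψ : ψ.IsPrimitive) : jB F K Θ = 0 := by
  have h1 := jB_gauss hF Θ ψ
  rw [MulChar.sum_eq_zero_of_ne_one, zero_mul] at h1
  · exact (mul_eq_zero.1 h1).resolve_left (gauss_ne_zero (eta_ne_one K hF) hψ)
  · intro h2
    exact h (mul_inv_eq_one.1 h2).symm

lemma jB_gauss' (hF : ringChar F ≠ 2) {Θ : MulChar E K} (h : res F Θ = eta F K)
    (ψ : AddChar F K) :
    gaussSum (eta F K) ψ * jB F K Θ =
      ((Fintype.card F : K) - 1) * gaussSum Θ (trChar E ψ) := by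
  rw [jB_gauss hF, h, mul_inv_cancel, MulChar.sum_one_eq_card_units, Fintype.card_units,
    Nat.cast_sub Fintype.card_pos, Nat.cast_one]

lemma normSq_gauss {χ : MulChar F ℂ} (hχ : χ ≠ 1) {ψ : AddChar F ℂ} (hψ : ψ.IsPrimitive) :
    ‖gaussSum χ ψ‖ ^ 2 = Fintype.card F := by
  have h := gaussSum_mul_gaussSum_eq_card hχ hψ
  rw [← star_gaussSum_eq] at h
  have h1 : ((‖gaussSum χ ψ‖ ^ 2 : ℝ) : ℂ) = (Fintype.card F : ℂ) := by
    rw [← h, Complex.ofReal_pow]
    exact (Complex.mul_conj' _).symm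
  exact_mod_cast h1

lemma exists_primitive : ∃ ψ : AddChar F ℂ, ψ.IsPrimitive := by
  exact ⟨AddChar.FiniteField.primitiveChar_to_Complex F,
    AddChar.FiniteField.primitiveChar_to_Complex_isPrimitive F⟩

lemma norm_jA {θ : MulChar F ℂ} (h0 : θ ≠ 1) (hF : ringChar F ≠ 2) (h : θ * eta F ℂ ≠ 1) :
    ‖jA ℂ θ‖ ^ 2 = Fintype.card F := by
  obtain ⟨ψ, hψ⟩ := exists_primitive (F := F)
  have h1 := congrArg (fun x => ‖x‖ ^ 2) (jA_gauss h ψ)
  simp only [norm_mul, mul_pow] at h1
  rw [normSq_gauss h hψ, normSq_gauss h0 hψ, normSq_gauss (eta_ne_one ℂ hF) hψ] at h1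
  have h2 : ‖θ (-1)‖ ^ 2 = 1 := by
    rw [← norm_pow, ← map_pow, neg_one_sq, map_one, norm_one]
  have h3 : (Fintype.card F : ℝ) ≠ 0 := by exact_mod_cast Fintype.card_ne_zero
  rw [h2, one_mul] at h1
  exact mul_left_cancel₀ h3 h1

lemma norm_jB (hc : Fintype.card E = Fintype.card F ^ 2) {Θ : MulChar E ℂ}
    (hF : ringChar F ≠ 2) (h : res F Θ = eta F ℂ) :
    ‖jB F ℂ Θ‖ ^ 2 = ((Fintype.card F : ℝ) - 1) ^ 2 * Fintype.card F := by
  obtain ⟨ψ, hψ⟩ := exists_primitive (F := F)
  have h0 : Θ ≠ 1 := by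
    rintro rfl
    apply eta_ne_one ℂ hF
    rw [← h]
    ext a
    rw [res_apply, MulChar.one_apply_coe, MulChar.one_apply]
    exact (a.isUnit.map (algebraMap F E))
  have h1 := congrArg (fun x => ‖x‖ ^ 2) (jB_gauss' hF h ψ)
  simp only [norm_mul, mul_pow] at h1
  rw [normSq_gauss h0 (trChar_primitive hψ), normSq_gauss (eta_ne_one ℂ hF) hψ, hc] at h1
  have h2 : ‖(Fintype.card F : ℂ) - 1‖ ^ 2 = ((Fintype.card F : ℝ) - 1) ^ 2 := by
    rw [show (Fintype.card F : ℂ) - 1 = (((Fintype.card F : ℝ) - 1 : ℝ) : ℂ) by push_cast; rfl,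
      Complex.norm_real, Real.norm_eq_abs, sq_abs]
  rw [h2] at h1
  have h3 : (Fintype.card F : ℝ) ≠ 0 := by exact_mod_cast Fintype.card_ne_zero
  apply mul_left_cancel₀ h3
  rw [h1]
  push_cast
  ring

end Pool.Agent.R414.CB
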