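import Mathlib

set_option autoImplicit false
set_option linter.unusedSectionVars false

/-! Orthogonality of the multiplicative characters of a finite field. -/

open Finset

namespace Pool.Agent.R414.CB

variable {E : Type} [Field E] [Fintype E] [DecidableEq E]
variable {K : Type} [Field K] [CharZero K] [IsAlgClosed K]

noncomputable instance fintypeMC : Fintype (MulChar E K) := Fintype.ofFinite _

noncomputable instance decEqMC : DecidableEq (MulChar E K) := Classical.decEq _

lemma enough : HasEnoughRootsOfUnity K (Monoid.exponent Eˣ) := by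
  have h : Monoid.exponent Eˣ ≠ 0 := Monoid.exponent_ne_zero_of_finite
  have : NeZero ((Monoid.exponent Eˣ : ℕ) : K) := ⟨by exact_mod_cast h⟩
  infer_instance

lemma card_MC : Fintype.card (MulChar E K) = Fintype.card E - 1 := by
  have := enough (E := E) (K := K)
  have h := MulChar.card_eq_card_units_of_hasEnoughRootsOfUnity E K
  rw [Nat.card_eq_fintype_card, Nat.card_eq_fintype_card, Fintype.card_units] at h
  exact h

lemma cast_card_MC : ((Fintype.card (MulChar E K) : ℕ) : K) = (Fintype.card E : K) - 1 := by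
  rw [card_MC, Nat.cast_sub Fintype.card_pos, Nat.cast_one]

lemma isCyclic_MC : IsCyclic (MulChar E K) := by
  have := enough (E := E) (K := K)
  obtain ⟨e⟩ := MulChar.mulEquiv_units E K
  exact isCyclic_of_surjective e.symm e.symm.surjective

lemma q1_ne : (Fintype.card E : K) - 1 ≠ 0 := by
  have h : 1 < Fintype.card E := Fintype.one_lt_card
  rw [sub_ne_zero]
  exact_mod_cast h.ne'

lemma sum_MC (a : E) : ∑ χ : MulChar E K, χ a = if a = 1 then (Fintype.card E : K) - 1 else 0 := by
  split_ifs with h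
  · rw [h, sum_congr rfl fun χ _ => MulChar.map_one χ, sum_const, card_univ, nsmul_eq_mul, mul_one,
      cast_card_MC]
  · have := enough (E := E) (K := K)
    obtain ⟨χ, hχ⟩ := MulChar.exists_apply_ne_one_of_hasEnoughRootsOfUnity E K h
    have h1 := Equiv.sum_comp (Equiv.mulLeft χ) (fun χ' : MulChar E K => χ' a)
    simp only [Equiv.coe_mulLeft, MulChar.mul_apply] at h1
    rw [← mul_sum] at h1
    have h2 : (χ a - 1) * ∑ χ' : MulChar E K, χ' a = 0 := by
      rw [sub_mul, one_mul, h1, sub_self]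
    rcases mul_eq_zero.1 h2 with h3 | h3
    · exact absurd (sub_eq_zero.1 h3) hχ
    · exact h3

lemma sum_all (χ : MulChar E K) : ∑ a : E, χ a = if χ = 1 then (Fintype.card E : K) - 1 else 0 := by
  split_ifs with h
  · rw [h, MulChar.sum_one_eq_card_units, Fintype.card_units, Nat.cast_sub Fintype.card_pos,
      Nat.cast_one]
  · exact MulChar.sum_eq_zero_of_ne_one h

lemma inv_pow_apply (θ : MulChar E K) (N : ℕ) {t : E} (ht : t ≠ 0) :
    ((θ ^ N)⁻¹) t = θ (t ^ N)⁻¹ := by
  have h1 : (θ ^ N)⁻¹ t * (θ ^ N) t = 1 := by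
    rw [← MulChar.mul_apply, inv_mul_cancel, MulChar.one_apply ht.isUnit]
  have h2 : (θ ^ N) t = θ (t ^ N) := by
    rw [map_pow]
    exact MulChar.pow_apply_coe θ N (Units.mk0 t ht)
  have h3 : θ (t ^ N)⁻¹ * θ (t ^ N) = 1 := by
    rw [← map_mul, inv_mul_cancel₀ (pow_ne_zero N ht), map_one]
  rw [h2] at h1
  have h4 : θ (t ^ N) ≠ 0 := right_ne_zero_of_mul_eq_one h3
  exact mul_right_cancel₀ h4 (h1.trans h3.symm)

/-- orthogonality -/
theorem sum_pow_eq (N : ℕ) (α : MulChar E K) (h : E → K) :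
    ∑ t : E, α t * h (t ^ N) =
      ∑ θ ∈ univ.filter (fun θ : MulChar E K => θ ^ N = α), ∑ s : E, θ s * h s := by
  apply mul_left_cancel₀ (q1_ne (E := E) (K := K))
  have h1 : ((Fintype.card E : K) - 1) *
      ∑ θ ∈ univ.filter (fun θ : MulChar E K => θ ^ N = α), ∑ s : E, θ s * h s =
      ∑ θ : MulChar E K, (∑ t : E, (α * (θ ^ N)⁻¹) t) * ∑ s : E, θ s * h s := by
    rw [mul_sum, sum_filter]
    refine sum_congr rfl fun θ _ => ?_
    rw [sum_all]
    by_cases hθ : θ ^ N = α
    · rw [if_pos hθ, if_pos (by rw [hθ, mul_inv_cancel])]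
    · rw [if_neg hθ, if_neg, zero_mul]
      intro h2
      exact hθ (mul_inv_eq_one.1 h2).symm
  rw [h1]
  have h2 : ∀ θ : MulChar E K, (∑ t : E, (α * (θ ^ N)⁻¹) t) * ∑ s : E, θ s * h s =
      ∑ t : E, ∑ s : E, α t * h s * ((θ ^ N)⁻¹ t * θ s) := by
    intro θ
    rw [sum_mul]
    refine sum_congr rfl fun t _ => ?_
    rw [mul_sum]
    refine sum_congr rfl fun s _ => ?_
    rw [MulChar.mul_apply]
    ring
  rw [sum_congr rfl fun θ _ => h2 θ, sum_comm, mul_sum]
  refine sum_congr rfl fun t _ => ?_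
  rw [sum_comm]
  by_cases ht : t = 0
  · subst ht
    rw [MulChar.map_zero]
    simp
  · have h3 : ∀ s : E, ∑ θ : MulChar E K, α t * h s * ((θ ^ N)⁻¹ t * θ s) =
        if s = t ^ N then ((Fintype.card E : K) - 1) * (α t * h s) else 0 := by
      intro s
      rw [← mul_sum]
      have h4 : ∀ θ : MulChar E K, (θ ^ N)⁻¹ t * θ s = θ ((t ^ N)⁻¹ * s) := by
        intro θ
        rw [inv_pow_apply θ N ht, map_mul]
      rw [sum_congr rfl fun θ _ => h4 θ, sum_MC]
      have h5 : (t ^ N)⁻¹ * s = 1 ↔ s = t ^ N := by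
        rw [inv_mul_eq_one₀ (pow_ne_zero N ht), eq_comm]
      simp only [h5]
      split_ifs <;> ring
    rw [sum_congr rfl fun s _ => h3 s, sum_ite_eq' univ (t ^ N), if_pos (mem_univ _)]

/-- characters with `χ ^ N = 1` -/
lemma card_pow_one_le {N : ℕ} (hN : 0 < N) :
    (univ.filter fun χ : MulChar E K => χ ^ N = 1).card ≤ N := by
  classical
  have := isCyclic_MC (E := E) (K := K)
  exact IsCyclic.card_pow_eq_one_le hN

end Pool.Agent.R414.CB
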