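import Pool.Agent.R414.CB.Trans
import Pool.Agent.R414.CB.Comb2
import Pool.Agent.Y145.DI.Stick

set_option autoImplicit false
set_option linter.unusedSectionVars false

/-! The `p`-adic part: Stickelberger's theorem gives balanced orbits. -/

open Finset Polynomial

namespace Pool.Agent.R414.CB

open Pool.Agent.Y145.DI

section

variable {d p k : ℕ}

lemma mod_odd (hd : 0 < d) (hp : Odd p) {b : ℕ} (hb : Odd b) (s : ℕ) :
    Odd ((b * p ^ s) % (4 * d)) := by
  have h1 : Odd (b * p ^ s) := hb.mul (hp.pow)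
  rw [Nat.odd_iff] at h1 ⊢
  rw [Nat.mod_mod_of_dvd _ (⟨2 * d, by ring⟩ : 2 ∣ 4 * d)]
  exact h1

lemma mod_shift (hd : 0 < d) (hp : Odd p) {b : ℕ} (hb : Odd b) (s : ℕ) :
    ((b + 2 * d) * p ^ s) % (4 * d) + (if 2 * d < (b * p ^ s) % (4 * d) then 4 * d else 0) =
      (b * p ^ s) % (4 * d) + 2 * d := by
  have h0 := mod_odd hd hp hb s
  obtain ⟨c, hc⟩ := hp.pow (n := s)
  have h1 : ((b + 2 * d) * p ^ s) % (4 * d) = ((b * p ^ s) % (4 * d) + 2 * d) % (4 * d) := by
    have : (b + 2 * d) * p ^ s = b * p ^ s + 2 * d + 4 * d * c := by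
      rw [add_mul, hc]
      ring
    rw [this, Nat.add_mul_mod_self_left, Nat.mod_add_mod]
  rw [h1]
  set ρ := (b * p ^ s) % (4 * d) with hρ
  have h2 : ρ < 4 * d := Nat.mod_lt _ (by omega)
  split_ifs with h
  · rw [Nat.mod_eq_sub_mod (by omega), Nat.mod_eq_of_lt (by omega)]
    omega
  · rw [Nat.mod_eq_of_lt]
    · omega
    · obtain ⟨e, he⟩ := h0
      omega

lemma bal_of_mod (hd : 0 < d) (h : ∀ b : ℕ, Odd b → ¬ d ∣ b → b < 4 * d →
    ((range k).filter fun s => 2 * d < (b * p ^ s) % (4 * d)).card * 2 = k) : Bal d p k := by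
  intro b hb hdb
  have h1 : Odd (b % (4 * d)) := by
    rw [Nat.odd_iff] at hb ⊢
    rw [Nat.mod_mod_of_dvd _ (⟨2 * d, by ring⟩ : 2 ∣ 4 * d)]
    exact hb
  have h2 : ¬ d ∣ b % (4 * d) := by
    intro h3
    exact hdb ((Nat.dvd_mod_iff ⟨4, by ring⟩).1 h3)
  have h3 := h _ h1 h2 (Nat.mod_lt _ (by omega))
  refine Eq.trans ?_ h3
  congr 2
  apply filter_congr
  intro s _
  rw [Nat.mod_mul_mod]

lemma card_of_expo_A (hd : 0 < d) (hp : Odd p) {b : ℕ} (hb : Odd b)
    (h : expo p (4 * d) k b = expo p (4 * d) k ((b + 2 * d) % (4 * d))) :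
    ((range k).filter fun s => 2 * d < (b * p ^ s) % (4 * d)).card * 2 = k := by
  have h1 : expo p (4 * d) k ((b + 2 * d) % (4 * d)) +
      ((range k).filter fun s => 2 * d < (b * p ^ s) % (4 * d)).card * (4 * d) =
      expo p (4 * d) k b + k * (2 * d) := by
    unfold expo
    rw [card_filter, sum_mul, ← sum_add_distrib]
    have : (k * (2 * d)) = ∑ _s ∈ range k, 2 * d := by rw [sum_const, card_range, smul_eq_mul]
    rw [this, ← sum_add_distrib]
    refine sum_congr rfl fun s _ => ?_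
    rw [← mod_shift hd hp hb s, Nat.mod_mul_mod]
    congr 1
    split_ifs <;> simp
  rw [← h] at h1
  have h2 : ((range k).filter fun s => 2 * d < (b * p ^ s) % (4 * d)).card * (4 * d) =
      k * (2 * d) := by omega
  have h3 : (((range k).filter fun s => 2 * d < (b * p ^ s) % (4 * d)).card * 2) * (2 * d) =
      k * (2 * d) := by rw [← h2]; ring
  exact Nat.eq_of_mul_eq_mul_right (by omega) h3

lemma mod_reflect (hd : 0 < d) (hd2 : Odd d) (hp : Odd p) {q : ℕ} (hq : q = p ^ k)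
    (hq4 : q % 4 = 1) (hqd : d ∣ q + 1) {b : ℕ} (hb : Odd b) (s : ℕ) :
    (b * p ^ s) % (4 * d) + (b * p ^ (s + k)) % (4 * d) =
      2 * d + (if 2 * d < (b * p ^ s) % (4 * d) then 4 * d else 0) := by
  have h0 := mod_odd hd hp hb s
  have h1 : (b * p ^ (s + k)) % (4 * d) = ((b * p ^ s) % (4 * d) * q) % (4 * d) := by
    rw [pow_add, ← hq, ← mul_assoc, Nat.mod_mul_mod]
  rw [h1]
  set ρ := (b * p ^ s) % (4 * d) with hρ
  have h2 : ρ < 4 * d := Nat.mod_lt _ (by omega)
  obtain ⟨e, he⟩ := h0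
  -- `q + 1 = 2 d c` with `c` odd
  have h3 : ∃ c, q + 1 = 2 * d * (2 * c + 1) := by
    obtain ⟨f, hf⟩ := hqd
    have h4 : Even f := by
      by_contra h5
      rw [Nat.not_even_iff_odd] at h5
      have h6 := hd2.mul h5
      rw [← hf] at h6
      rw [Nat.odd_iff] at h6
      omega
    obtain ⟨g, hg⟩ := h4
    have h5 : Odd g := by
      by_contra h5
      rw [Nat.not_odd_iff_even] at h5
      obtain ⟨i, hi⟩ := h5
      have : q + 1 = 4 * (d * i) := by rw [hf, hg, hi]; ring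
      omega
    obtain ⟨c, hc⟩ := h5
    refine ⟨c, ?_⟩
    rw [hf, hg, hc]
    ring
  obtain ⟨c, hc⟩ := h3
  have h6 : (ρ * q) % (4 * d) = if 2 * d < ρ then 6 * d - ρ else 2 * d - ρ := by
    have h7 : ρ * q + ρ = 2 * d + 4 * d * (e + c + 2 * e * c) := by
      calc ρ * q + ρ = ρ * (q + 1) := by ring
        _ = (2 * e + 1) * (2 * d * (2 * c + 1)) := by rw [he, hc]
        _ = _ := by ring
    split_ifs with h8
    · have h9 : ρ * q + 4 * d = (6 * d - ρ) + 4 * d * (e + c + 2 * e * c) := by omega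
      have h10 : (ρ * q) % (4 * d) = (ρ * q + 4 * d) % (4 * d) := by rw [Nat.add_mod_right]
      rw [h10, h9, Nat.add_mul_mod_self_left, Nat.mod_eq_of_lt (by omega)]
    · have h9 : ρ * q = (2 * d - ρ) + 4 * d * (e + c + 2 * e * c) := by omega
      rw [h9, Nat.add_mul_mod_self_left, Nat.mod_eq_of_lt (by omega)]
  rw [h6]
  split_ifs <;> omega

lemma card_of_expo_B (hd : 0 < d) (hd2 : Odd d) (hp : Odd p) {q : ℕ} (hq : q = p ^ k)
    (hq4 : q % 4 = 1) (hqd : d ∣ q + 1) {b : ℕ} (hb : Odd b)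
    (h : expo p (4 * d) (2 * k) b = 4 * d * k) :
    ((range k).filter fun s => 2 * d < (b * p ^ s) % (4 * d)).card * 2 = k := by
  have h1 : expo p (4 * d) (2 * k) b = k * (2 * d) +
      ((range k).filter fun s => 2 * d < (b * p ^ s) % (4 * d)).card * (4 * d) := by
    unfold expo
    have e1 : ∑ s ∈ range (2 * k), (b * p ^ s) % (4 * d) =
        ∑ s ∈ range k, ((b * p ^ s) % (4 * d) + (b * p ^ (s + k)) % (4 * d)) := by
      rw [two_mul, sum_range_add, sum_add_distrib]
      congr 1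
      refine sum_congr rfl fun s _ => ?_
      rw [add_comm s k]
    have : (k * (2 * d)) = ∑ _s ∈ range k, 2 * d := by rw [sum_const, card_range, smul_eq_mul]
    rw [e1, card_filter, sum_mul, this, ← sum_add_distrib]
    refine sum_congr rfl fun s _ => ?_
    rw [mod_reflect hd hd2 hp hq hq4 hqd hb s]
    congr 1
    split_ifs <;> simp
  rw [h1] at h
  have h3 : (((range k).filter fun s => 2 * d < (b * p ^ s) % (4 * d)).card * 2) * (2 * d) =
      k * (2 * d) := by
    have e1 : 4 * d * k = k * (2 * d) + k * (2 * d) := by ring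
    have e2 : ((range k).filter fun s => 2 * d < (b * p ^ s) % (4 * d)).card * (4 * d) =
      (((range k).filter fun s => 2 * d < (b * p ^ s) % (4 * d)).card * 2) * (2 * d) := by ring
    omega
  exact Nat.eq_of_mul_eq_mul_right (by omega) h3

end

variable {F E : Type} [Field F] [Fintype F] [DecidableEq F] [Field E] [Fintype E] [DecidableEq E]
  [Algebra F E]

lemma exists_shift {L : Type} [Field L] [CharZero L] {ψ₁ : AddChar E L} (h₁ : ψ₁.IsPrimitive)
    (ψ₂ : AddChar E L) : ∃ c : E, ψ₂ = AddChar.mulShift ψ₁ c := by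
  by_contra hne
  rw [not_exists] at hne
  have h2 : ∀ c : E, ∑ x : E, ψ₂ x * ψ₁ (-(c * x)) = 0 := by
    intro c
    have h3 : ψ₂ * (AddChar.mulShift ψ₁ c)⁻¹ ≠ 1 := by
      intro h4
      exact hne c (mul_inv_eq_one.1 h4)
    have h5 := AddChar.sum_eq_zero_of_ne_one h3
    rw [← h5]
    refine sum_congr rfl fun x _ => ?_
    rw [AddChar.mul_apply, AddChar.inv_apply, AddChar.mulShift_apply, mul_neg]
  have h3 : ∑ c : E, ∑ x : E, ψ₂ x * ψ₁ (-(c * x)) = (Fintype.card E : L) := by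
    rw [sum_comm]
    have h4 : ∀ x : E, ∑ c : E, ψ₂ x * ψ₁ (-(c * x)) =
        if x = 0 then (Fintype.card E : L) else 0 := by
      intro x
      rw [← mul_sum]
      have h5 := AddChar.sum_mulShift (-x) h₁
      simp only [mul_neg, neg_eq_zero] at h5
      rw [h5]
      split_ifs with h6
      · rw [h6, AddChar.map_zero_eq_one, one_mul]
      · push_cast
        rw [mul_zero]
    rw [sum_congr rfl fun x _ => h4 x, sum_ite_eq' univ (0 : E), if_pos (mem_univ _)]
  rw [sum_congr rfl fun c _ => h2 c, sum_const_zero] at h3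
  have : (Fintype.card E : L) ≠ 0 := by exact_mod_cast Fintype.card_ne_zero
  exact this h3.symm

section

variable {p : ℕ} [Fact p.Prime]

lemma norm_char {χ : MulChar E (PadicAlgCl p)} {a : E} (ha : a ≠ 0) : ‖χ a‖ = 1 := by
  have h1 : (χ a) ^ (Fintype.card E - 1) = 1 := by
    rw [← map_pow, FiniteField.pow_card_sub_one_eq_one a ha, map_one]
  have h2 := congrArg norm h1
  rw [norm_pow, norm_one] at h2
  have h3 : 1 < Fintype.card E := Fintype.one_lt_card
  exact (pow_eq_one_iff_of_nonneg (norm_nonneg _) (by omega)).1 h2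

lemma norm_gauss_indep (χ : MulChar E (PadicAlgCl p)) {ψ₁ ψ₂ : AddChar E (PadicAlgCl p)}
    (h₁ : ψ₁.IsPrimitive) (h₂ : ψ₂.IsPrimitive) : ‖gaussSum χ ψ₁‖ = ‖gaussSum χ ψ₂‖ := by
  obtain ⟨c, hc⟩ := exists_shift h₁ ψ₂
  have hc0 : c ≠ 0 := by
    rintro rfl
    rw [AddChar.mulShift_zero] at hc
    have := h₂ one_ne_zero
    rw [AddChar.mulShift_one] at this
    exact this hc
  have h3 := gaussSum_mulShift χ ψ₁ (Units.mk0 c hc0)
  rw [Units.val_mk0, ← hc] at h3
  rw [← h3, norm_mul, norm_char hc0, one_mul]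

lemma norm_eta_gauss (hF : ringChar F ≠ 2) {ψ : AddChar F (PadicAlgCl p)} (hψ : ψ.IsPrimitive)
    {m : ℕ} (hq : Fintype.card F = p ^ (2 * m)) :
    ‖gaussSum (eta F (PadicAlgCl p)) ψ‖ = ‖((p : ℕ) : PadicAlgCl p)‖ ^ m := by
  have h1 := gaussSum_mul_gaussSum_eq_card (eta_ne_one (PadicAlgCl p) hF) hψ
  have h2 : (eta F (PadicAlgCl p))⁻¹ = eta F (PadicAlgCl p) :=
    inv_eq_of_mul_eq_one_left (eta_mul_self _)
  have hψ' : (ψ⁻¹).IsPrimitive := by
    apply AddChar.IsPrimitive.of_ne_one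
    intro h3
    have h4 := hψ (one_ne_zero)
    rw [AddChar.mulShift_one] at h4
    exact h4 (inv_eq_one.1 h3)
  have h3 := congrArg norm h1
  rw [h2, norm_mul, norm_gauss_indep _ hψ' hψ, hq] at h3
  push_cast at h3
  rw [norm_pow, mul_comm 2 m, pow_mul, ← pow_two] at h3
  exact (pow_left_inj₀ (norm_nonneg _) (pow_nonneg (norm_nonneg _) _) two_ne_zero).1 h3

end

end Pool.Agent.R414.CB
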