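import Pool.Agent.R414.CB.Orth
import Pool.Agent.R414.CB.Fib

set_option autoImplicit false
set_option linter.unusedSectionVars false

/-! The character sum of `φ_d`. -/

open Finset Polynomial

namespace Pool.Agent.R414.CB

/-- the polynomial `φ_d` with `φ_d (t + 1 / t) = t ^ d + 1 / t ^ d` -/
noncomputable def phi (k : Type) [Field k] (d : ℕ) : k[X] := dickson 1 (1 : k) d

lemma phi_add_inv {k : Type} [Field k] (d : ℕ) (t : kˣ) :
    (phi k d).eval ((t : k) + (t⁻¹ : kˣ)) = (t : k) ^ d + ((t⁻¹ : kˣ) : k) ^ d :=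
  dickson_one_one_eval_add_inv _ _ (by simp) d

variable {F E : Type} [Field F] [Fintype F] [DecidableEq F] [Field E] [Fintype E] [DecidableEq E]
  [Algebra F E]
variable (K : Type) [Field K] [CharZero K]

variable (F) in
/-- the quadratic character of `F`, with values in `K` -/
noncomputable def eta : MulChar F K := (quadraticChar F).ringHomComp (Int.castRingHom K)

lemma eta_apply (a : F) : eta F K a = ((quadraticChar F a : ℤ) : K) := rfl

lemma eta_sq {a : F} (ha : a ≠ 0) : eta F K a ^ 2 = 1 := by
  rw [eta_apply, ← Int.cast_pow, quadraticChar_sq_one ha, Int.cast_one]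

lemma eta_odd {a : F} (ha : a ≠ 0) {d : ℕ} (hd : Odd d) : eta F K a ^ d = eta F K a := by
  obtain ⟨r, rfl⟩ := hd
  rw [pow_succ, pow_mul, eta_sq K ha, one_pow, one_mul]

lemma eta_inv {a : F} (ha : a ≠ 0) : eta F K a⁻¹ = eta F K a := by
  have h1 : eta F K a⁻¹ * eta F K a = 1 := by
    rw [← map_mul, inv_mul_cancel₀ ha, map_one]
  have h2 := eta_sq K ha
  have h3 : eta F K a ≠ 0 := right_ne_zero_of_mul_eq_one h1
  apply mul_right_cancel₀ h3
  rw [h1, ← h2, pow_two]

variable (F E) in
/-- the quadratic character of `E` as `η ∘ N` -/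
noncomputable def etaN : MulChar E K where
  toFun z := eta F K (Algebra.norm F z)
  map_one' := by simp
  map_mul' x y := by simp
  map_nonunit' a ha := by
    have : a = 0 := by
      by_contra h
      exact ha (Ne.isUnit h)
    rw [this, Algebra.norm_zero, MulChar.map_zero]

lemma etaN_apply (z : E) : etaN F E K z = eta F K (Algebra.norm F z) := rfl

/-- the sums that evaluate the split part -/
noncomputable def jA (θ : MulChar F K) : K := ∑ s : F, θ s * eta F K (1 + s)

variable (F) in
/-- the sums that evaluate the nonsplit part -/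
noncomputable def jB (Θ : MulChar E K) : K := ∑ s : E, Θ s * eta F K (Algebra.trace F E s)

section

variable (hc : Fintype.card E = Fintype.card F ^ 2)

include hc

lemma phi_trace (d : ℕ) (z : Eˣ) :
    (phi F d).eval (Algebra.trace F E ((z : E) ^ (Fintype.card F - 1))) =
      Algebra.trace F E ((z : E) ^ ((Fintype.card F - 1) * d)) := by
  apply (algebraMap F E).injective
  have h1 : algebraMap F E ((phi F d).eval (Algebra.trace F E ((z : E) ^ (Fintype.card F - 1)))) =
      (phi E d).eval (algebraMap F E (Algebra.trace F E ((z : E) ^ (Fintype.card F - 1)))) := by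
    have h0 : (phi F d).map (algebraMap F E) = phi E d := by
      unfold phi
      rw [map_dickson, map_one]
    rw [← h0, eval_map, eval₂_at_apply]
  rw [h1, trace_pow hc, phi_add_inv, trace_eq hc, pow_mul, ← Units.val_pow_eq_pow_val z,
    ← Units.val_pow_eq_pow_val, ← Units.val_pow_eq_pow_val, ← Units.val_pow_eq_pow_val]
  congr 2
  have h := pow_mu hc z
  set u := z ^ (Fintype.card F - 1)
  have h2 : u ^ Fintype.card F = u⁻¹ := by
    rw [pow_succ] at h
    exact eq_inv_of_mul_eq_one_left h
  rw [← pow_mul, mul_comm d, pow_mul, h2]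

/-- the nonsplit part, before expanding -/
lemma eta_trace {d : ℕ} (hd : Odd d) (z : Eˣ) :
    eta F K (Algebra.trace F E ((z : E) ^ ((Fintype.card F - 1) * d))) =
      etaN F E K z * eta F K (Algebra.trace F E ((z : E) ^ (2 * d))) := by
  have hN : Algebra.norm F (z : E) ≠ 0 := by
    rw [Ne, Algebra.norm_eq_zero_iff]
    exact z.ne_zero
  have hq : 1 ≤ Fintype.card F := Fintype.card_pos
  have h1 : Algebra.norm F (z : E) ^ d *
      Algebra.trace F E ((z : E) ^ ((Fintype.card F - 1) * d)) =
      Algebra.trace F E ((z : E) ^ (2 * d)) := by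
    apply (algebraMap F E).injective
    rw [map_mul, map_pow, norm_eq hc, trace_eq hc, trace_eq hc, mul_add]
    rw [add_comm]
    congr 1
    · have h3 : (z ^ (Fintype.card F + 1)) ^ d * (z ^ ((Fintype.card F - 1) * d)) ^ Fintype.card F =
          z ^ (2 * d) := by
        obtain ⟨m, hm⟩ : ∃ m, Fintype.card F = m + 1 := ⟨Fintype.card F - 1, by omega⟩
        have h4 : (z ^ (Fintype.card F - 1)) ^ (Fintype.card F + 1) = 1 := pow_mu hc z
        have h5 : (Fintype.card F + 1) * d + (Fintype.card F - 1) * d * Fintype.card F =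
            (Fintype.card F - 1) * (Fintype.card F + 1) * d + 2 * d := by
          rw [hm]
          simp only [Nat.add_sub_cancel]
          ring
        rw [← pow_mul, ← pow_mul, ← pow_add, h5, pow_add, pow_mul, pow_mul, h4, one_pow, one_mul]
      have h6 := congrArg (fun u : Eˣ => (u : E)) h3
      simp only [Units.val_mul, Units.val_pow_eq_pow_val] at h6
      exact h6
    · rw [← pow_mul, ← pow_mul, ← pow_add]
      congr 1
      obtain ⟨m, hm⟩ : ∃ m, Fintype.card F = m + 1 := ⟨Fintype.card F - 1, by omega⟩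
      rw [hm]
      simp only [Nat.add_sub_cancel]
      ring
  rw [← h1, map_mul (eta F K), map_pow (eta F K), eta_odd K hN hd, etaN_apply, ← mul_assoc, ← pow_two, eta_sq K hN,
    one_mul]

end

lemma eta_split {d : ℕ} (hd : Odd d) (t : Fˣ) :
    eta F K ((t : F) ^ d + ((t⁻¹ : Fˣ) : F) ^ d) = eta F K t * eta F K (1 + (t : F) ^ (2 * d)) := by
  have ht := t.ne_zero
  have h1 : (t : F) ^ d + ((t⁻¹ : Fˣ) : F) ^ d = ((t : F)⁻¹) ^ d * (1 + (t : F) ^ (2 * d)) := by
    rw [Units.val_inv_eq_inv_val, mul_add, mul_one, two_mul d, pow_add, ← mul_assoc, ← mul_pow,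
      inv_mul_cancel₀ ht, one_pow, one_mul, add_comm]
  rw [h1, map_mul, map_pow, eta_inv K ht, eta_odd K ht hd]

lemma sum_units_eq {k : Type} [Field k] [Fintype k] [DecidableEq k] {L : Type} [Field L]
    (f : k → L) (h0 : f 0 = 0) : ∑ t : kˣ, f t = ∑ t : k, f t := by
  rw [← sum_compl_add_sum {(0 : k)} f, sum_singleton, h0, add_zero]
  refine sum_bij (fun t _ => (t : k)) ?_ ?_ ?_ ?_
  · intro t _
    rw [mem_compl, mem_singleton]
    exact t.ne_zero
  · intro t _ t' _ h
    exact Units.ext h
  · intro b hb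
    rw [mem_compl, mem_singleton] at hb
    exact ⟨Units.mk0 b hb, mem_univ _, rfl⟩
  · intro t _
    rfl

/-- **Expansion of the character sum of `φ_d`.** -/
theorem main_sum [IsAlgClosed K] (hc : Fintype.card E = Fintype.card F ^ 2) {d : ℕ} (hd : Odd d) :
    ((Fintype.card F : K) - 1) *
        ∑ θ ∈ univ.filter (fun θ : MulChar F K => θ ^ (2 * d) = eta F K), jA K θ +
      ∑ Θ ∈ univ.filter (fun Θ : MulChar E K => Θ ^ (2 * d) = etaN F E K), jB F K Θ =
    2 * ((Fintype.card F : K) - 1) * ∑ x : F, eta F K ((phi F d).eval x) := by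
  rw [← sum_subst hc (fun x => eta F K ((phi F d).eval x))]
  have h1 : ∑ t : Fˣ, eta F K ((phi F d).eval ((t : F) + (t⁻¹ : Fˣ))) =
      ∑ θ ∈ univ.filter (fun θ : MulChar F K => θ ^ (2 * d) = eta F K), jA K θ := by
    rw [sum_congr rfl fun t _ => by rw [phi_add_inv, eta_split K hd t],
      sum_units_eq (fun t : F => eta F K t * eta F K (1 + t ^ (2 * d)))
        (by rw [MulChar.map_zero, zero_mul]),
      sum_pow_eq (2 * d) (eta F K) (fun s => eta F K (1 + s))]
    rfl
  have h2 : ∑ z : Eˣ, eta F K
      ((phi F d).eval (Algebra.trace F E ((z : E) ^ (Fintype.card F - 1)))) =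
      ∑ Θ ∈ univ.filter (fun Θ : MulChar E K => Θ ^ (2 * d) = etaN F E K), jB F K Θ := by
    rw [sum_congr rfl fun t _ => by rw [phi_trace hc, eta_trace K hc hd t],
      sum_units_eq (fun t : E => etaN F E K t * eta F K (Algebra.trace F E (t ^ (2 * d))))
        (by rw [MulChar.map_zero, zero_mul]),
      sum_pow_eq (2 * d) (etaN F E K) (fun s => eta F K (Algebra.trace F E s))]
    rfl
  rw [h1, h2]

end Pool.Agent.R414.CB
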