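import Pool.Agent.R414.CB.Ext

set_option autoImplicit false
set_option linter.unusedSectionVars false

/-! Transfer of the values of the sums from `ℂ` to any algebraically closed field of
characteristic zero. -/

open Finset Polynomial

namespace Pool.Agent.R414.CB

variable {F E : Type} [Field F] [Fintype F] [DecidableEq F] [Field E] [Fintype E] [DecidableEq E]
  [Algebra F E]

section

variable {K L : Type} [Field K] [CharZero K] [Field L] [CharZero L] (τ : K →+* L)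

lemma rhc_inj {χ χ' : MulChar E K} (h : χ.ringHomComp τ = χ'.ringHomComp τ) : χ = χ' := by
  ext a
  have h1 := congrArg (fun χ : MulChar E L => χ a) h
  simp only [MulChar.ringHomComp_apply] at h1
  exact τ.injective h1

lemma rhc_eta : (eta F K).ringHomComp τ = eta F L := by
  ext a
  rw [MulChar.ringHomComp_apply, eta_apply, eta_apply, map_intCast]

lemma rhc_etaN : (etaN F E K).ringHomComp τ = etaN F E L := by
  ext a
  rw [MulChar.ringHomComp_apply, etaN_apply, etaN_apply, eta_apply, eta_apply, map_intCast]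

lemma rhc_res (Θ : MulChar E K) : (res F Θ).ringHomComp τ = res F (Θ.ringHomComp τ) := by
  ext a
  rfl

lemma rhc_jA (θ : MulChar F K) : τ (jA K θ) = jA L (θ.ringHomComp τ) := by
  unfold jA
  rw [map_sum]
  refine sum_congr rfl fun s _ => ?_
  rw [map_mul, ← rhc_eta τ]
  rfl

lemma rhc_jB (Θ : MulChar E K) : τ (jB F K Θ) = jB F L (Θ.ringHomComp τ) := by
  unfold jB
  rw [map_sum]
  refine sum_congr rfl fun s _ => ?_
  rw [map_mul, ← rhc_eta τ]
  rfl

variable [IsAlgClosed K] [IsAlgClosed L]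

lemma rhc_surj (χ : MulChar E L) : ∃ χ' : MulChar E K, χ'.ringHomComp τ = χ := by
  have h : Function.Bijective (fun χ' : MulChar E K => χ'.ringHomComp τ) := by
    rw [Fintype.bijective_iff_injective_and_card]
    exact ⟨fun χ χ' h => rhc_inj τ h, by rw [card_MC, card_MC]⟩
  exact h.2 χ

lemma mem_AA_rhc {d : ℕ} {θ : MulChar F K} : θ.ringHomComp τ ∈ AA F L d ↔ θ ∈ AA F K d := by
  rw [mem_AA, mem_AA, ← rhc_eta τ, MulChar.ringHomComp_pow]
  exact ⟨fun h => rhc_inj τ h, fun h => by rw [h]⟩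

lemma mem_BB_rhc {d : ℕ} {Θ : MulChar E K} :
    Θ.ringHomComp τ ∈ BB F E L d ↔ Θ ∈ BB F E K d := by
  rw [mem_BB, mem_BB, ← rhc_eta τ, ← rhc_etaN τ, MulChar.ringHomComp_pow, ← rhc_res]
  exact ⟨fun h => ⟨rhc_inj τ h.1, rhc_inj τ h.2⟩, fun h => by rw [h.1, h.2]; exact ⟨rfl, rfl⟩⟩

end

lemma nonempty_hom (L : Type) [Field L] [CharZero L] [IsAlgClosed L] :
    Nonempty (AlgebraicClosure ℚ →+* L) := by
  have h : Algebra.IsAlgebraic ℚ (AlgebraicClosure ℚ) := by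
    convert! AlgebraicClosure.isAlgebraic ℚ
  exact ⟨(IsAlgClosed.lift : AlgebraicClosure ℚ →ₐ[ℚ] L).toRingHom⟩

theorem transfer_A {L : Type} [Field L] [CharZero L] [IsAlgClosed L] {d r : ℕ}
    (h : ∀ θ ∈ AA F ℂ d \ AA F ℂ 1, jA ℂ θ = (r : ℂ)) :
    ∀ θ ∈ AA F L d \ AA F L 1, jA L θ = (r : L) := by
  obtain ⟨σ⟩ := nonempty_hom ℂ
  obtain ⟨τ⟩ := nonempty_hom L
  intro θ hθ
  obtain ⟨θ₀, rfl⟩ := rhc_surj τ θ
  rw [mem_sdiff, mem_AA_rhc, mem_AA_rhc, ← mem_AA_rhc σ, ← mem_AA_rhc σ (d := 1),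
    ← mem_sdiff] at hθ
  have h1 := h _ hθ
  rw [← rhc_jA, ← map_natCast σ] at h1
  have h2 := σ.injective h1
  rw [← rhc_jA, h2, map_natCast]

theorem transfer_B {L : Type} [Field L] [CharZero L] [IsAlgClosed L] {d r : ℕ}
    (h : ∀ Θ ∈ BB F E ℂ d \ BB F E ℂ 1, jB F ℂ Θ = ((Fintype.card F : ℂ) - 1) * r) :
    ∀ Θ ∈ BB F E L d \ BB F E L 1, jB F L Θ = ((Fintype.card F : L) - 1) * r := by
  obtain ⟨σ⟩ := nonempty_hom ℂ
  obtain ⟨τ⟩ := nonempty_hom L
  intro θ hθ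
  obtain ⟨θ₀, rfl⟩ := rhc_surj τ θ
  rw [mem_sdiff, mem_BB_rhc, mem_BB_rhc, ← mem_BB_rhc σ, ← mem_BB_rhc σ (d := 1),
    ← mem_sdiff] at hθ
  have h1 := h _ hθ
  have e1 : ((Fintype.card F : ℂ) - 1) * r = σ (((Fintype.card F : AlgebraicClosure ℚ) - 1) * r) := by
    rw [map_mul, map_sub, map_one, map_natCast, map_natCast]
  rw [← rhc_jB, e1] at h1
  have h2 := σ.injective h1
  rw [← rhc_jB, h2, map_mul, map_sub, map_one, map_natCast, map_natCast]

end Pool.Agent.R414.CB
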